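import Pool.Agent.H53.W.HDefs
import Pool.Agent.H13.Q1.FourH

set_option autoImplicit false
open Set Topology Filter MeasureTheory

/-! # W-H (H4): Cardy's function near `0` -/

namespace Pool.Agent.H5.WH

open Pool.Agent.H13.Q1.Four (bet cardy bet_pos bet_meas bet_int bet_total_pos)

lemma int_pow {l : ℝ} (_ : 0 ≤ l) : ∫ s in (0 : ℝ)..l, s ^ (-2 / 3 : ℝ) = 3 * l ^ (1 / 3 : ℝ) := by
  rw [integral_rpow (Or.inl (by norm_num))]
  rw [show (-2 / 3 : ℝ) + 1 = 1 / 3 by norm_num, Real.zero_rpow (by norm_num)]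
  ring

lemma int_pow_ii (l : ℝ) : IntervalIntegrable (fun s : ℝ => s ^ (-2 / 3 : ℝ)) volume 0 l :=
  intervalIntegral.intervalIntegrable_rpow' (by norm_num)

/-- two sided bound -/
lemma cardy_bounds {l : ℝ} (h0 : 0 < l) (h1 : l < 1) :
    3 / (∫ s in (0 : ℝ)..1, bet s) ≤ cardy l / l ^ (1 / 3 : ℝ) ∧
    cardy l / l ^ (1 / 3 : ℝ) ≤ (1 - l) ^ (-2 / 3 : ℝ) * (3 / (∫ s in (0 : ℝ)..1, bet s)) := by
  have hB := bet_total_pos
  have hp : 0 < l ^ (1 / 3 : ℝ) := Real.rpow_pos_of_pos h0 _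
  have hbi : IntervalIntegrable bet volume 0 l := bet_int ⟨le_rfl, zero_le_one⟩ ⟨h0.le, h1.le⟩
  have lo : 3 * l ^ (1 / 3 : ℝ) ≤ ∫ s in (0 : ℝ)..l, bet s := by
    rw [← int_pow h0.le]
    apply intervalIntegral.integral_mono_on_of_le_Ioo h0.le (int_pow_ii l) hbi
    intro s hs
    unfold bet
    have h2 : 0 < s ^ (-2 / 3 : ℝ) := Real.rpow_pos_of_pos hs.1 _
    have h3 : 1 ≤ (1 - s) ^ (-2 / 3 : ℝ) :=
      Real.one_le_rpow_of_pos_of_le_one_of_nonpos (by linarith [hs.2]) (by linarith [hs.1])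
        (by norm_num)
    nlinarith
  have hi : ∫ s in (0 : ℝ)..l, bet s ≤ (1 - l) ^ (-2 / 3 : ℝ) * (3 * l ^ (1 / 3 : ℝ)) := by
    rw [← int_pow h0.le, ← intervalIntegral.integral_const_mul]
    apply intervalIntegral.integral_mono_on_of_le_Ioo h0.le hbi ((int_pow_ii l).const_mul _)
    intro s hs
    unfold bet
    have h2 : 0 < s ^ (-2 / 3 : ℝ) := Real.rpow_pos_of_pos hs.1 _
    have h3 : (1 - s) ^ (-2 / 3 : ℝ) ≤ (1 - l) ^ (-2 / 3 : ℝ) :=
      Real.rpow_le_rpow_of_nonpos (by linarith) (by linarith [hs.2]) (by norm_num)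
    nlinarith
  unfold cardy
  constructor
  · rw [div_le_div_iff₀ hB hp, div_mul_cancel₀ _ hB.ne']
    exact lo
  · rw [div_div, mul_comm (∫ s in (0 : ℝ)..1, bet s), ← div_div, div_le_iff₀ hB]
    rw [mul_assoc, div_mul_cancel₀ _ hB.ne', div_le_iff₀ hp]
    linarith

/-- **(H4)** -/
theorem stCardy : Pool.Agent.H53.W.StCardy := by
  have hB := bet_total_pos
  refine ⟨3 / (∫ s in (0 : ℝ)..1, bet s), by positivity, ?_⟩
  have h1 : Tendsto (fun l : ℝ => (1 - l) ^ (-2 / 3 : ℝ) * (3 / (∫ s in (0 : ℝ)..1, bet s)))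
      (𝓝[>] 0) (𝓝 (3 / (∫ s in (0 : ℝ)..1, bet s))) := by
    have : ContinuousAt (fun l : ℝ => (1 - l) ^ (-2 / 3 : ℝ) *
        (3 / (∫ s in (0 : ℝ)..1, bet s))) 0 := by
      apply ContinuousAt.mul _ continuousAt_const
      apply ContinuousAt.rpow_const (by fun_prop)
      left; norm_num
    have h2 := this.tendsto
    simp only [sub_zero, Real.one_rpow, one_mul] at h2
    exact h2.mono_left nhdsWithin_le_nhds
  have h3 : ∀ᶠ l : ℝ in 𝓝[>] 0, l ∈ Ioo (0 : ℝ) 1 := Ioo_mem_nhdsGT one_pos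
  refine tendsto_of_tendsto_of_tendsto_of_le_of_le' tendsto_const_nhds h1 ?_ ?_
  · filter_upwards [h3] with l hl
    exact (cardy_bounds hl.1 hl.2).1
  · filter_upwards [h3] with l hl
    exact (cardy_bounds hl.1 hl.2).2

end Pool.Agent.H5.WH
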