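import Pool.Agent.H53.W.HDefs

set_option autoImplicit false
open Complex Metric Set Topology Filter

/-! # W-H: the interface with the lattice (ratio limit) part -/

namespace Pool.Agent.H5.WH

open Pool.Agent.Q1.M4
open Pool.Agent.Q1.M5 (hh lv FlatV App EL CT)
open Pool.Agent.H75.Perc (dir Pr)

/-- Probability that the lattice interval of half length `L` around the flat vertex `n` is
connected to the wired arc. -/
noncomputable def PI (P : PType) (X Y : ℤ → ℤ) (n : ℕ) (L : ℤ) : ℝ :=
  Pr (EL P X Y) (fun ω => ∃ t : ℤ, |t| ≤ L ∧ CT P X Y (lv P X Y n + t • dir (P.side n).2) ω)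

/-- **(H1), final form.** Ratio limit: for two flat vertices (any types, any directions, any
lattice lines of the same scale), the conditional probabilities of the vertex given a small
interval around it agree up to `ε`; the lengths `L j` of the intervals are `s R j + o(R j)`. -/
def StRL : Prop := ∀ ε : ℝ, 0 < ε → ∀ (P P' : PType) (x y x' y' : ℤ → ℝ), StrictMono x →
  StrictMono y → StrictMono x' → StrictMono y' → ∀ n n' : ℕ, FlatV P n → FlatV P' n' →
  ∃ s0 : ℝ, 0 < s0 ∧ ∀ s : ℝ, 0 < s → s < s0 →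
  ∀ (R : ℕ → ℝ) (X Y X' Y' : ℕ → ℤ → ℤ), App x y R X Y → App x' y' R X' Y' →
  ∃ L : ℕ → ℤ, Tendsto (fun j => (L j : ℝ) / R j) atTop (𝓝 s) ∧ ∀ᶠ j in atTop,
    |(hh P (X j) (Y j) (lv P (X j) (Y j) n) / PI P (X j) (Y j) n (L j)) /
      (hh P' (X' j) (Y' j) (lv P' (X' j) (Y' j) n') / PI P' (X' j) (Y' j) n' (L j)) - 1| ≤ ε

end Pool.Agent.H5.WH
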