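import Pool.Agent.H53.W.HDefs

set_option autoImplicit false
open Complex Metric Set Topology Filter

/-! # W-H (H5): symmetric increments of the boundary values at a flat vertex -/

namespace Pool.Agent.H5.WH

open Pool.Agent.Q1.M4
open Pool.Agent.Q1.M5 (FlatV)
open Pool.Agent.H29.M7 (Chart BV LocM)

variable {P : PType} {x y : ℤ → ℝ} {ψ : ℂ → ℂ} {W : ℝ}

/-- boundary values from the local model -/
lemma locM_val {n : ℕ} {ρ : ℝ} {E : ℂ → ℂ} (h : LocM P x y ψ W n ρ E) {s : ℝ} (hs : |s| < ρ) :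
    Tendsto ψ (𝓝[Om P.Q x y] (pt x y (P.vert n) + s * udir (P.side n).2))
      (𝓝 (((E s).re : ℝ) : ℂ)) := by
  obtain ⟨p, hp⟩ : ∃ p, pt x y (P.vert n) = p := ⟨_, rfl⟩
  obtain ⟨e, he⟩ : ∃ e, udir (P.side n).2 = e := ⟨_, rfl⟩
  have he0 : e ≠ 0 := by rw [← he]; exact udir_ne _
  have hne : ‖e‖ = 1 := by rw [← he]; exact norm_udir _
  obtain ⟨h1, h2, a, ha, hd⟩ := h.bd s hs
  rw [hp, he]
  have hEr : (((E s).re : ℝ) : ℂ) = E s := Complex.ext (by simp) (by simp [h1])
  rw [hEr]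
  have h3 : Tendsto (fun z : ℂ => (z - p) / e) (𝓝[Om P.Q x y] (p + s * e)) (𝓝 (s : ℂ)) := by
    have : Continuous fun z : ℂ => (z - p) / e := by fun_prop
    have h5 := this.tendsto (p + s * e)
    rw [add_sub_cancel_left, mul_div_cancel_right₀ _ he0] at h5
    exact h5.mono_left nhdsWithin_le_nhds
  have h4 := (hd.continuousAt.tendsto).comp h3
  refine h4.congr' ?_
  have h6 : ∀ᶠ z in 𝓝[Om P.Q x y] (p + s * e), z ∈ ball p ρ := by
    apply mem_nhdsWithin_of_mem_nhds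
    apply isOpen_ball.mem_nhds
    rw [mem_ball_iff_norm, add_sub_cancel_left, norm_mul, hne, mul_one, norm_real,
      Real.norm_eq_abs]
    exact hs
  filter_upwards [h6, self_mem_nhdsWithin] with z hz hz'
  have h7 := (h.half z (by rw [hp]; exact hz)).1 hz'
  rw [hp, he] at h7
  have h8 : (z - p) / e ∈ ball (0 : ℂ) ρ := by
    rw [mem_ball_zero_iff, norm_div, hne, div_one, ← dist_eq_norm]
    exact hz
  have h9 := (h.eq _ h8 h7).2
  rw [hp, he] at h9
  simp only [Function.comp_apply]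
  rw [h9]
  congr 1
  field_simp
  ring

/-- **(H5)** -/
theorem stInc : Pool.Agent.H53.W.StInc := by
  intro P x y ψ W hx hy C n hn r D hb
  obtain ⟨ρ, E, h⟩ := C.locM hx hy hn
  obtain ⟨h1, h2, a, ha, hd⟩ := h.bd 0 (by rw [abs_zero]; exact h.pos)
  rw [ofReal_zero] at h1 h2 hd
  have hb' := h.bV hd
  obtain ⟨e1, e2⟩ := hb'.unique hx hy hb
  subst e1
  subst e2
  refine ⟨ρ, h.pos, fun s => (E s).re, fun s hs => locM_val h hs, ?_⟩
  have hg : HasDerivAt (fun s : ℝ => (E s).re) a 0 := by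
    have := HasDerivAt.real_of_complex (z := 0) (e := E) (e' := (a : ℂ)) (by rw [ofReal_zero]; exact hd)
    rwa [ofReal_re] at this
  have hs1 : Tendsto (fun s : ℝ => ((E s).re - (E 0).re) / s) (𝓝[≠] 0) (𝓝 a) := by
    have h3 := hasDerivAt_iff_tendsto_slope.1 hg
    refine h3.congr ?_
    intro s
    rw [slope_def_field, sub_zero, ofReal_zero]
  have hs2 : Tendsto (fun s : ℝ => -s) (𝓝[>] 0) (𝓝[≠] 0) := by
    refine tendsto_nhdsWithin_of_tendsto_nhds_of_eventually_within _ ?_ ?_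
    · have h5 : Tendsto (fun s : ℝ => -s) (𝓝 0) (𝓝 (-0)) := (continuous_neg.tendsto (0 : ℝ))
      rw [neg_zero] at h5
      exact h5.mono_left nhdsWithin_le_nhds
    · filter_upwards [self_mem_nhdsWithin] with s hs
      have : (0 : ℝ) < s := hs
      simp only [mem_compl_iff, mem_singleton_iff, neg_eq_zero]
      exact this.ne'
  have hs3 : 𝓝[>] (0 : ℝ) ≤ 𝓝[≠] 0 := nhdsWithin_mono _ (fun s hs => ne_of_gt hs)
  have h6 := (hs1.mono_left hs3).add (hs1.comp hs2)
  have h7 : Tendsto (fun s : ℝ => W - (E ((-s : ℝ) : ℂ)).re) (𝓝[>] 0) (𝓝 (W - (E 0).re)) := by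
    have h8 : ContinuousAt (fun s : ℝ => (E s).re) 0 := hg.continuousAt
    have h9 := (h8.tendsto.mono_left (nhdsWithin_le_nhds (s := {0}ᶜ))).comp hs2
    rw [ofReal_zero] at h9
    exact tendsto_const_nhds.sub h9
  have hW : W - (E 0).re ≠ 0 := by
    intro h8; linarith
  have h8 := h6.div h7 hW
  rw [show a + a = 2 * a by ring] at h8
  refine h8.congr' ?_
  filter_upwards [self_mem_nhdsWithin] with s hs
  have hs0 : s ≠ 0 := ne_of_gt hs
  simp only [Function.comp_apply, Pi.div_apply]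
  rw [div_div, mul_comm (W - (E ((-s : ℝ) : ℂ)).re) s, ← div_div]
  congr 1
  field_simp
  ring

end Pool.Agent.H5.WH
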