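import Pool.Agent.H5.WH.Defs
import Pool.Agent.H29.M7.NewV

set_option autoImplicit false
open Complex Metric Set Topology Filter

/-! # W-H (H2): a small lattice interval around a flat vertex is a marked arc of a refined type -/

namespace Pool.Agent.H5.WH

open Pool.Agent.Q1.M4
open Pool.Agent.Q1.M5 (hh lv FlatV App EL CT sV CI)
open Pool.Agent.H48.Q1 (ref Refi RefA vm exists_refine exists_new_h exists_new_v flatV_new sV_iff)
open Pool.Agent.H91.Q1 (ne_of_between tendsto_shift)
open Pool.Agent.H75.Perc (dir dir_cases Pr)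

variable {x y : ℤ → ℝ}

/-! ### Straight lattice segments -/

/-- `v` is between `p` and `q` in the direction `k` -/
def Btw (k : ℤ) (p q v : ℤ × ℤ) : Prop :=
  ∃ t t' : ℤ, 0 ≤ t ∧ 0 ≤ t' ∧ v = p + t • dir k ∧ q = v + t' • dir k

lemma sV_btw {X Y : ℤ → ℤ} (hX : StrictMono X) (hY : StrictMono Y) (s : Cell × ℤ) (v : ℤ × ℤ) :
    sV X Y s v ↔ Btw s.2 (lpt X Y (tail s)) (lpt X Y (tail s + dir s.2)) v := by
  obtain ⟨⟨a, b⟩, k⟩ := s
  obtain ⟨v1, v2⟩ := v
  have hx := hX (show a < a + 1 by omega)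
  have hy := hY (show b < b + 1 by omega)
  rw [sV_iff]
  unfold Btw lpt tail
  simp only
  rcases dir_cases k with ⟨h, e⟩ | ⟨h, e⟩ | ⟨h, e⟩ | ⟨h, e⟩
  · simp only [h, e]
    constructor
    · rintro ⟨⟨h1, h2⟩, h3, -⟩
      have h3 := h3 trivial
      exact ⟨v1 - X a, X (a + 1) - v1, by omega, by omega, by ext <;> simp [h3], by
        ext <;> simp [h3]⟩
    · rintro ⟨t, t', h1, h2, h3, h4⟩
      have a1 := congrArg Prod.fst h3
      have a2 := congrArg Prod.snd h3
      have a3 := congrArg Prod.fst h4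
      have a4 := congrArg Prod.snd h4
      simp at a1 a2 a3 a4
      refine ⟨⟨⟨by omega, by omega⟩, by omega, by omega⟩, fun _ => by omega, by omega, by omega,
        by omega⟩
  · simp only [h, e]
    constructor
    · rintro ⟨⟨h1, h2⟩, -, h3, -⟩
      have h3 := h3 trivial
      exact ⟨v2 - Y b, Y (b + 1) - v2, by omega, by omega, by ext <;> simp [h3], by
        ext <;> simp [h3]⟩
    · rintro ⟨t, t', h1, h2, h3, h4⟩
      have a1 := congrArg Prod.fst h3
      have a2 := congrArg Prod.snd h3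
      have a3 := congrArg Prod.fst h4
      have a4 := congrArg Prod.snd h4
      simp at a1 a2 a3 a4
      refine ⟨⟨⟨by omega, by omega⟩, by omega, by omega⟩, by omega, fun _ => by omega, by omega,
        by omega⟩
  · simp only [h, e]
    constructor
    · rintro ⟨⟨h1, h2⟩, -, -, h3, -⟩
      have h3 := h3 trivial
      exact ⟨X (a + 1) - v1, v1 - X a, by omega, by omega, by ext <;> simp [h3], by
        ext <;> simp [h3]⟩
    · rintro ⟨t, t', h1, h2, h3, h4⟩
      have a1 := congrArg Prod.fst h3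
      have a2 := congrArg Prod.snd h3
      have a3 := congrArg Prod.fst h4
      have a4 := congrArg Prod.snd h4
      simp at a1 a2 a3 a4
      refine ⟨⟨⟨by omega, by omega⟩, by omega, by omega⟩, by omega, by omega, fun _ => by omega,
        by omega⟩
  · simp only [h, e]
    constructor
    · rintro ⟨⟨h1, h2⟩, -, -, -, h3⟩
      have h3 := h3 trivial
      exact ⟨Y (b + 1) - v2, v2 - Y b, by omega, by omega, by ext <;> simp [h3], by
        ext <;> simp [h3]⟩
    · rintro ⟨t, t', h1, h2, h3, h4⟩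
      have a1 := congrArg Prod.fst h3
      have a2 := congrArg Prod.snd h3
      have a3 := congrArg Prod.fst h4
      have a4 := congrArg Prod.snd h4
      simp at a1 a2 a3 a4
      refine ⟨⟨⟨by omega, by omega⟩, by omega, by omega⟩, by omega, by omega, by omega,
        fun _ => by omega⟩

lemma Btw.trans_iff {k : ℤ} {p q r v : ℤ × ℤ} {T T' : ℤ} (hT : 0 ≤ T) (hT' : 0 ≤ T')
    (h1 : q = p + T • dir k) (h2 : r = q + T' • dir k) :
    (Btw k p q v ∨ Btw k q r v) ↔ Btw k p r v := by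
  subst h1
  subst h2
  constructor
  · rintro (⟨t, t', a1, a2, a3, a4⟩ | ⟨t, t', a1, a2, a3, a4⟩)
    · refine ⟨t, t' + T', a1, by omega, a3, ?_⟩
      rw [a4, add_assoc, ← add_smul]
    · refine ⟨T + t, t', by omega, a2, ?_, a4⟩
      rw [a3, add_assoc, ← add_smul]
  · rintro ⟨t, t', a1, a2, a3, a4⟩
    have hd : dir k ≠ 0 := by
      rcases dir_cases k with ⟨-, e⟩ | ⟨-, e⟩ | ⟨-, e⟩ | ⟨-, e⟩ <;> rw [e] <;> simp
    have hs : T + T' = t + t' := by
      rw [a3, add_assoc, add_assoc, ← add_smul, ← add_smul] at a4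
      have a5 := add_left_cancel a4
      exact smul_left_injective ℤ hd a5
    rcases le_total t T with h | h
    · left
      refine ⟨t, T - t, a1, by omega, a3, ?_⟩
      rw [a3, add_assoc, ← add_smul]
      congr 2
      ring
    · right
      refine ⟨t - T, t', by omega, a2, ?_, a4⟩
      rw [a3, add_assoc, ← add_smul]
      congr 2
      ring

/-- A straight run of sides. -/
lemma run_btw (P : PType) {X Y : ℤ → ℤ} (hX : StrictMono X) (hY : StrictMono Y) {k : ℤ}
    {n1 n2 : ℕ} (h12 : n1 < n2) (hd : ∀ m, n1 ≤ m → m < n2 → (P.side m).2 = k) :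
    (∃ T : ℤ, 0 ≤ T ∧ lv P X Y n2 = lv P X Y n1 + T • dir k) ∧
    ∀ v : ℤ × ℤ, (∃ m, n1 ≤ m ∧ m < n2 ∧ sV X Y (P.side m) v) ↔
      Btw k (lv P X Y n1) (lv P X Y n2) v := by
  induction n2, h12 using Nat.le_induction with
  | base =>
    have e := hd n1 le_rfl (Nat.lt_succ_self _)
    have e1 : lv P X Y (n1 + 1) = lpt X Y (tail (P.side n1) + dir (P.side n1).2) := by
      unfold lv
      rw [P.vert_succ]
      rfl
    have e2 : lv P X Y n1 = lpt X Y (tail (P.side n1)) := rfl
    have hx := hX.monotone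
    constructor
    · have h1 : sV X Y (P.side n1) (lv P X Y n1) ∨ True := Or.inr trivial
      rw [Nat.succ_eq_add_one, e1, e2, e]
      obtain ⟨⟨⟨a, b⟩, k'⟩, hs⟩ : ∃ s, P.side n1 = s := ⟨_, rfl⟩
      rw [hs] at e ⊢
      simp only at e
      subst e
      have x1 := hX (show a < a + 1 by omega)
      have y1 := hY (show b < b + 1 by omega)
      unfold lpt tail
      simp only
      rcases dir_cases k' with ⟨h, e⟩ | ⟨h, e⟩ | ⟨h, e⟩ | ⟨h, e⟩
      · refine ⟨X (a + 1) - X a, by omega, ?_⟩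
        ext <;> simp [h, e]
      · refine ⟨Y (b + 1) - Y b, by omega, ?_⟩
        ext <;> simp [h, e]
      · refine ⟨X (a + 1) - X a, by omega, ?_⟩
        ext <;> simp [h, e]
      · refine ⟨Y (b + 1) - Y b, by omega, ?_⟩
        ext <;> simp [h, e]
    · intro v
      rw [Nat.succ_eq_add_one, e1, e2]
      have h2 := sV_btw hX hY (P.side n1) v
      rw [e] at h2 ⊢
      rw [← h2]
      constructor
      · rintro ⟨m, m1, m2, m3⟩
        obtain rfl : m = n1 := by omega
        exact m3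
      · intro h
        exact ⟨n1, le_rfl, by omega, h⟩
  | succ n h12 ih =>
    obtain ⟨⟨T, hT, hT'⟩, ih2⟩ := ih (fun m m1 m2 => hd m m1 (by omega))
    have e := hd n (by omega) (by omega)
    have e1 : lv P X Y (n + 1) = lpt X Y (tail (P.side n) + dir (P.side n).2) := by
      unfold lv
      rw [P.vert_succ]
      rfl
    have e2 : lv P X Y n = lpt X Y (tail (P.side n)) := rfl
    have hstep : ∃ T : ℤ, 0 ≤ T ∧ lv P X Y (n + 1) = lv P X Y n + T • dir k := by
      rw [e1, e2, e]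
      obtain ⟨⟨⟨a, b⟩, k'⟩, hs⟩ : ∃ s, P.side n = s := ⟨_, rfl⟩
      rw [hs] at e ⊢
      simp only at e
      subst e
      have x1 := hX (show a < a + 1 by omega)
      have y1 := hY (show b < b + 1 by omega)
      unfold lpt tail
      simp only
      rcases dir_cases k' with ⟨h, e⟩ | ⟨h, e⟩ | ⟨h, e⟩ | ⟨h, e⟩
      · refine ⟨X (a + 1) - X a, by omega, ?_⟩
        ext <;> simp [h, e]
      · refine ⟨Y (b + 1) - Y b, by omega, ?_⟩
        ext <;> simp [h, e]
      · refine ⟨X (a + 1) - X a, by omega, ?_⟩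
        ext <;> simp [h, e]
      · refine ⟨Y (b + 1) - Y b, by omega, ?_⟩
        ext <;> simp [h, e]
    obtain ⟨T', hT1, hT2⟩ := hstep
    constructor
    · refine ⟨T + T', by omega, ?_⟩
      rw [hT2, hT', add_assoc, ← add_smul]
    · intro v
      rw [← Btw.trans_iff hT hT1 hT' hT2, ← ih2 v]
      have h2 := sV_btw hX hY (P.side n) v
      rw [← e2, ← e1, e] at h2
      rw [← h2]
      constructor
      · rintro ⟨m, m1, m2, m3⟩
        rcases Nat.lt_succ_iff_lt_or_eq.1 m2 with h | h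
        · exact Or.inl ⟨m, m1, h, m3⟩
        · subst h; exact Or.inr m3
      · rintro (⟨m, m1, m2, m3⟩ | h)
        · exact ⟨m, m1, by omega, m3⟩
        · exact ⟨n, by omega, by omega, h⟩

/-- symmetric intervals -/
lemma btw_sym {k : ℤ} {p v : ℤ × ℤ} {L : ℤ} :
    Btw k (p + (-L) • dir k) (p + L • dir k) v ↔ ∃ t : ℤ, |t| ≤ L ∧ v = p + t • dir k := by
  have hd : dir k ≠ 0 := by
    rcases dir_cases k with ⟨-, e⟩ | ⟨-, e⟩ | ⟨-, e⟩ | ⟨-, e⟩ <;> rw [e] <;> simp
  constructor
  · rintro ⟨t, t', a1, a2, a3, a4⟩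
    rw [a3, add_assoc, add_assoc, ← add_smul, ← add_smul] at a4
    have a5 := smul_left_injective ℤ hd (add_left_cancel a4)
    refine ⟨-L + t, by rw [abs_le]; omega, ?_⟩
    rw [a3, add_assoc, ← add_smul]
  · rintro ⟨t, h1, rfl⟩
    rw [abs_le] at h1
    refine ⟨t + L, L - t, by omega, by omega, ?_, ?_⟩
    · rw [add_assoc, ← add_smul]
      congr 2
      ring
    · rw [add_assoc, ← add_smul]
      congr 2
      ring

/-! ### The refined type -/

/-- two new vertices on the horizontal free sides around the flat vertex `n` -/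
lemma int_h (P : PType) (hx : StrictMono x) (hy : StrictMono y) {n : ℕ} (hn : FlatV P n)
    (hk : (P.side n).2 % 2 = 0) {z1 z2 : ℝ} (h12 : z1 ≠ z2)
    (h1 : x (P.side (n - 1)).1.1 < z1) (h1' : z1 < x ((P.side (n - 1)).1.1 + 1))
    (h2 : x (P.side n).1.1 < z2) (h2' : z2 < x ((P.side n).1.1 + 1)) :
    ∃ (x' y' : ℤ → ℝ) (I K : ℤ → ℤ) (hr : Refi x y x' y' I K) (n1 n2 : ℕ),
      0 < n1 ∧ n1 < n2 ∧ n2 < (P.refine hr.hI hr.hK).m ∧
      (∀ m, n1 ≤ m → m < n2 → ((P.refine hr.hI hr.hK).side m).2 = (P.side n).2) ∧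
      pt x' y' ((P.refine hr.hI hr.hK).vert n1) = ⟨z1, y (P.vert n).2⟩ ∧
      pt x' y' ((P.refine hr.hI hr.hK).vert n2) = ⟨z2, y (P.vert n).2⟩ ∧
      ∀ (R : ℕ → ℝ) (X Y : ℕ → ℤ → ℤ) (Z1 Z2 : ℕ → ℤ), App x y R X Y →
        Tendsto (fun j => (Z1 j : ℝ) / R j) atTop (𝓝 z1) →
        Tendsto (fun j => (Z2 j : ℝ) / R j) atTop (𝓝 z2) →
        ∃ X' Y' : ℕ → ℤ → ℤ, App x' y' R X' Y' ∧ RefA I K X Y X' Y' ∧
        ∀ j, lv (P.refine hr.hI hr.hK) (X' j) (Y' j) n1 = (Z1 j, Y j (P.vert n).2) ∧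
          lv (P.refine hr.hI hr.hK) (X' j) (Y' j) n2 = (Z2 j, Y j (P.vert n).2) := by
  obtain ⟨h0, hm, hd⟩ := hn
  obtain ⟨x', y', I, K, cx, cy, hr, hcx, -, hlift⟩ := exists_refine hx hy {z1, z2} ∅
    (by
      intro z hz
      rw [Finset.mem_insert, Finset.mem_singleton] at hz
      rcases hz with rfl | rfl
      · exact ⟨_, _, h1, h1'⟩
      · exact ⟨_, _, h2, h2'⟩) (by simp)
  have hz1 : x' (cx z1) = z1 := hcx z1 (by simp)
  have hz2 : x' (cx z2) = z2 := hcx z2 (by simp)
  obtain ⟨c1, c1'⟩ := hr.between_x (by rw [hz1]; exact h1) (by rw [hz1]; exact h1')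
  obtain ⟨c2, c2'⟩ := hr.between_x (by rw [hz2]; exact h2) (by rw [hz2]; exact h2')
  obtain ⟨j1, j1a, j1b, j1c⟩ := exists_new_h P hr.hI hr.hK (by rw [hd]; exact hk) c1 c1'
  obtain ⟨j2, j2a, j2b, j2c⟩ := exists_new_h P hr.hI hr.hK hk c2 c2'
  have hLn : P.L I K n = P.L I K (n - 1) + Pool.Agent.H48.Q1.len I K (P.side (n - 1)) := by
    conv_lhs => rw [show n = n - 1 + 1 by omega]
    exact P.L_succ _
  have hLm : P.L I K (n + 1) ≤ P.L I K P.m := (P.L_strictMono hr.hI hr.hK).monotone hm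
  rw [P.L_succ] at hLm
  have hvv : (P.vert (n - 1)).2 = (P.vert n).2 := by
    have := P.vert_succ (n - 1)
    rw [show n - 1 + 1 = n by omega, hd] at this
    rw [this]
    rcases dir_cases (P.side n).2 with ⟨h, e⟩ | ⟨h, e⟩ | ⟨h, e⟩ | ⟨h, e⟩ <;>
      first | (exfalso; omega) | (rw [e]; simp)
  rw [hvv] at j1c
  refine ⟨x', y', I, K, hr, P.L I K (n - 1) + j1, P.L I K n + j2, by omega, by omega, ?_, ?_, ?_,
    ?_, ?_⟩
  · rw [P.refine_m]; omega
  · intro m m1 m2
    rcases lt_or_ge m (P.L I K n) with h | h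
    · obtain ⟨i, rfl⟩ : ∃ i, m = P.L I K (n - 1) + i := ⟨m - P.L I K (n - 1), by omega⟩
      rw [P.refine_dir hr.hI hr.hK (by omega), hd]
    · obtain ⟨i, rfl⟩ : ∃ i, m = P.L I K n + i := ⟨m - P.L I K n, by omega⟩
      rw [P.refine_dir hr.hI hr.hK (by omega)]
  · rw [j1c]
    unfold pt
    simp only
    rw [hz1, hr.ey]
  · rw [j2c]
    unfold pt
    simp only
    rw [hz2, hr.ey]
  · intro R X Y Z1 Z2 hApp hZ1 hZ2
    obtain ⟨X', Y', hApp', hRA, hZx, -⟩ := hlift R X Y (fun z => if z = z1 then Z1 else Z2)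
      (fun _ _ => 0) hApp (by
        intro w hw _
        rw [Finset.mem_insert, Finset.mem_singleton] at hw
        rcases hw with rfl | rfl
        · rw [if_pos rfl]; exact hZ1
        · rw [if_neg h12.symm]; exact hZ2) (by simp)
    refine ⟨X', Y', hApp', hRA, fun j => ⟨?_, ?_⟩⟩
    · have := hZx z1 (by simp) (ne_of_between hx h1 h1') j
      rw [if_pos rfl] at this
      unfold lv lpt
      rw [j1c]
      simp only
      rw [this, hRA.eY]
    · have := hZx z2 (by simp) (ne_of_between hx h2 h2') j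
      rw [if_neg h12.symm] at this
      unfold lv lpt
      rw [j2c]
      simp only
      rw [this, hRA.eY]

/-- two new vertices on the vertical free sides around the flat vertex `n` -/
lemma int_v (P : PType) (hx : StrictMono x) (hy : StrictMono y) {n : ℕ} (hn : FlatV P n)
    (hk : (P.side n).2 % 2 = 1) {z1 z2 : ℝ} (h12 : z1 ≠ z2)
    (h1 : y (P.side (n - 1)).1.2 < z1) (h1' : z1 < y ((P.side (n - 1)).1.2 + 1))
    (h2 : y (P.side n).1.2 < z2) (h2' : z2 < y ((P.side n).1.2 + 1)) :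
    ∃ (x' y' : ℤ → ℝ) (I K : ℤ → ℤ) (hr : Refi x y x' y' I K) (n1 n2 : ℕ),
      0 < n1 ∧ n1 < n2 ∧ n2 < (P.refine hr.hI hr.hK).m ∧
      (∀ m, n1 ≤ m → m < n2 → ((P.refine hr.hI hr.hK).side m).2 = (P.side n).2) ∧
      pt x' y' ((P.refine hr.hI hr.hK).vert n1) = ⟨x (P.vert n).1, z1⟩ ∧
      pt x' y' ((P.refine hr.hI hr.hK).vert n2) = ⟨x (P.vert n).1, z2⟩ ∧
      ∀ (R : ℕ → ℝ) (X Y : ℕ → ℤ → ℤ) (Z1 Z2 : ℕ → ℤ), App x y R X Y →
        Tendsto (fun j => (Z1 j : ℝ) / R j) atTop (𝓝 z1) →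
        Tendsto (fun j => (Z2 j : ℝ) / R j) atTop (𝓝 z2) →
        ∃ X' Y' : ℕ → ℤ → ℤ, App x' y' R X' Y' ∧ RefA I K X Y X' Y' ∧
        ∀ j, lv (P.refine hr.hI hr.hK) (X' j) (Y' j) n1 = (X j (P.vert n).1, Z1 j) ∧
          lv (P.refine hr.hI hr.hK) (X' j) (Y' j) n2 = (X j (P.vert n).1, Z2 j) := by
  obtain ⟨h0, hm, hd⟩ := hn
  obtain ⟨x', y', I, K, cx, cy, hr, -, hcy, hlift⟩ := exists_refine hx hy ∅ {z1, z2} (by simp)
    (by
      intro z hz
      rw [Finset.mem_insert, Finset.mem_singleton] at hz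
      rcases hz with rfl | rfl
      · exact ⟨_, _, h1, h1'⟩
      · exact ⟨_, _, h2, h2'⟩)
  have hz1 : y' (cy z1) = z1 := hcy z1 (by simp)
  have hz2 : y' (cy z2) = z2 := hcy z2 (by simp)
  obtain ⟨c1, c1'⟩ := hr.between_y (by rw [hz1]; exact h1) (by rw [hz1]; exact h1')
  obtain ⟨c2, c2'⟩ := hr.between_y (by rw [hz2]; exact h2) (by rw [hz2]; exact h2')
  obtain ⟨j1, j1a, j1b, j1c⟩ := exists_new_v P hr.hI hr.hK (by rw [hd]; exact hk) c1 c1'
  obtain ⟨j2, j2a, j2b, j2c⟩ := exists_new_v P hr.hI hr.hK hk c2 c2'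
  have hLn : P.L I K n = P.L I K (n - 1) + Pool.Agent.H48.Q1.len I K (P.side (n - 1)) := by
    conv_lhs => rw [show n = n - 1 + 1 by omega]
    exact P.L_succ _
  have hLm : P.L I K (n + 1) ≤ P.L I K P.m := (P.L_strictMono hr.hI hr.hK).monotone hm
  rw [P.L_succ] at hLm
  have hvv : (P.vert (n - 1)).1 = (P.vert n).1 := by
    have := P.vert_succ (n - 1)
    rw [show n - 1 + 1 = n by omega, hd] at this
    rw [this]
    rcases dir_cases (P.side n).2 with ⟨h, e⟩ | ⟨h, e⟩ | ⟨h, e⟩ | ⟨h, e⟩ <;>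
      first | (exfalso; omega) | (rw [e]; simp)
  rw [hvv] at j1c
  refine ⟨x', y', I, K, hr, P.L I K (n - 1) + j1, P.L I K n + j2, by omega, by omega, ?_, ?_, ?_,
    ?_, ?_⟩
  · rw [P.refine_m]; omega
  · intro m m1 m2
    rcases lt_or_ge m (P.L I K n) with h | h
    · obtain ⟨i, rfl⟩ : ∃ i, m = P.L I K (n - 1) + i := ⟨m - P.L I K (n - 1), by omega⟩
      rw [P.refine_dir hr.hI hr.hK (by omega), hd]
    · obtain ⟨i, rfl⟩ : ∃ i, m = P.L I K n + i := ⟨m - P.L I K n, by omega⟩
      rw [P.refine_dir hr.hI hr.hK (by omega)]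
  · rw [j1c]
    unfold pt
    simp only
    rw [hz1, hr.ex]
  · rw [j2c]
    unfold pt
    simp only
    rw [hz2, hr.ex]
  · intro R X Y Z1 Z2 hApp hZ1 hZ2
    obtain ⟨X', Y', hApp', hRA, -, hZy⟩ := hlift R X Y (fun _ _ => 0)
      (fun z => if z = z1 then Z1 else Z2) hApp (by simp) (by
        intro w hw _
        rw [Finset.mem_insert, Finset.mem_singleton] at hw
        rcases hw with rfl | rfl
        · rw [if_pos rfl]; exact hZ1
        · rw [if_neg h12.symm]; exact hZ2)
    refine ⟨X', Y', hApp', hRA, fun j => ⟨?_, ?_⟩⟩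
    · have := hZy z1 (by simp) (ne_of_between hy h1 h1') j
      rw [if_pos rfl] at this
      unfold lv lpt
      rw [j1c]
      simp only
      rw [this, hRA.eX]
    · have := hZy z2 (by simp) (ne_of_between hy h2 h2') j
      rw [if_neg h12.symm] at this
      unfold lv lpt
      rw [j2c]
      simp only
      rw [this, hRA.eX]

lemma pr_eq (P : PType) {I K : ℤ → ℤ} (hI : StrictMono I) (hK : StrictMono K)
    {X Y X' Y' : ℕ → ℤ → ℤ} (hRA : RefA I K X Y X' Y') {j : ℕ} (hX : StrictMono (X' j))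
    (hY : StrictMono (Y' j)) {n n1 n2 : ℕ} {L : ℤ} (h12 : n1 < n2)
    (hd : ∀ m, n1 ≤ m → m < n2 → ((P.refine hI hK).side m).2 = (P.side n).2)
    (e1 : lv (P.refine hI hK) (X' j) (Y' j) n1 =
      lv P (X j) (Y j) n + (-L) • dir (P.side n).2)
    (e2 : lv (P.refine hI hK) (X' j) (Y' j) n2 = lv P (X j) (Y j) n + L • dir (P.side n).2) :
    Pr (EL (P.refine hI hK) (X' j) (Y' j)) (CI (P.refine hI hK) (X' j) (Y' j) n1 n2) =
      PI P (X j) (Y j) n L := by
  obtain ⟨-, h1⟩ := run_btw (P.refine hI hK) hX hY h12 hd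
  unfold PI
  rw [hRA.EL P hI hK hX hY]
  congr 1
  funext ω
  apply propext
  unfold CI
  rw [hRA.CT P hI hK hX hY]
  rw [e1, e2] at h1
  constructor
  · rintro ⟨m, m1, m2, v, m3, m4⟩
    obtain ⟨t, ht, rfl⟩ := btw_sym.1 ((h1 v).1 ⟨m, m1, m2, m3⟩)
    exact ⟨t, ht, m4⟩
  · rintro ⟨t, ht, h⟩
    obtain ⟨m, m1, m2, m3⟩ := (h1 _).2 (btw_sym.2 ⟨t, ht, rfl⟩)
    exact ⟨m, m1, m2, _, m3, h⟩

/-- **(H2)** -/
theorem exists_int (P : PType) (hx : StrictMono x) (hy : StrictMono y) {n : ℕ}
    (hn : FlatV P n) : ∃ ρ : ℝ, 0 < ρ ∧ ∀ s : ℝ, 0 < s → s < ρ →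
    ∃ (x' y' : ℤ → ℝ) (I K : ℤ → ℤ) (hr : Refi x y x' y' I K) (n1 n2 : ℕ),
      0 < n1 ∧ n1 < n2 ∧ n2 < (P.refine hr.hI hr.hK).m ∧
      pt x' y' ((P.refine hr.hI hr.hK).vert n1) = pt x y (P.vert n) - s * udir (P.side n).2 ∧
      pt x' y' ((P.refine hr.hI hr.hK).vert n2) = pt x y (P.vert n) + s * udir (P.side n).2 ∧
      ∀ (R : ℕ → ℝ) (X Y : ℕ → ℤ → ℤ) (L : ℕ → ℤ), App x y R X Y →
        Tendsto (fun j => (L j : ℝ) / R j) atTop (𝓝 s) →
        ∃ X' Y' : ℕ → ℤ → ℤ, App x' y' R X' Y' ∧ ∀ᶠ j in atTop,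
          Pr (EL (P.refine hr.hI hr.hK) (X' j) (Y' j))
            (CI (P.refine hr.hI hr.hK) (X' j) (Y' j) n1 n2) = PI P (X j) (Y j) n (L j) := by
  have hn' := hn
  obtain ⟨h0, hm, hd⟩ := hn'
  have hv : P.vert n = tail (P.side n) := rfl
  have hv' : P.vert n = tail (P.side (n - 1)) + dir (P.side (n - 1)).2 := by
    have := P.vert_succ (n - 1)
    rw [show n - 1 + 1 = n by omega] at this
    rw [this]
    rfl
  obtain ⟨⟨⟨a, b⟩, k⟩, hs⟩ : ∃ s, P.side n = s := ⟨_, rfl⟩
  obtain ⟨⟨⟨a', b'⟩, k'⟩, hs'⟩ : ∃ s, P.side (n - 1) = s := ⟨_, rfl⟩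
  rw [hs, hs'] at hd
  simp only at hd
  subst hd
  have x1 := hx (show a < a + 1 by omega)
  have y1 := hy (show b < b + 1 by omega)
  have x2 := hx (show a' < a' + 1 by omega)
  have y2 := hy (show b' < b' + 1 by omega)
  refine ⟨min (min (x (a + 1) - x a) (y (b + 1) - y b))
    (min (x (a' + 1) - x a') (y (b' + 1) - y b')),
    lt_min (lt_min (by linarith) (by linarith)) (lt_min (by linarith) (by linarith)), ?_⟩
  intro s hs0 hs1
  rw [lt_min_iff, lt_min_iff, lt_min_iff] at hs1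
  obtain ⟨⟨s1, s2⟩, s3, s4⟩ := hs1
  rw [hs] at hv
  rw [hs'] at hv'
  rcases dir_cases k' with ⟨h, e⟩ | ⟨h, e⟩ | ⟨h, e⟩ | ⟨h, e⟩
  · have ht : P.vert n = (a, b) := by rw [hv]; unfold tail; simp only [h]; norm_num
    have ht' : P.vert n = (a' + 1, b') := by
      rw [hv']; unfold tail; simp only [h, e]; norm_num
    have ea : a = a' + 1 := by rw [ht] at ht'; exact congrArg Prod.fst ht'
    have eb : b = b' := by rw [ht] at ht'; exact congrArg Prod.snd ht'
    obtain ⟨x', y', I, K, hr, n1, n2, g1, g2, g3, g4, g5, g6, g7⟩ := int_h P hx hy hn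
      (by rw [hs]; simp only; omega) (z1 := x a - s) (z2 := x a + s) (by intro h; linarith)
      (by rw [hs']; simp only; rw [ea]; linarith) (by rw [hs']; simp only; rw [ea]; linarith)
      (by rw [hs]; simp only; linarith) (by rw [hs]; simp only; linarith)
    refine ⟨x', y', I, K, hr, n1, n2, g1, g2, g3, ?_, ?_, ?_⟩
    · rw [g5, ht, hs]
      have : udir k' = 1 := by unfold udir; rw [e]; apply Complex.ext <;> simp
      rw [this]
      apply Complex.ext <;> simp [pt]
    · rw [g6, ht, hs]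
      have : udir k' = 1 := by unfold udir; rw [e]; apply Complex.ext <;> simp
      rw [this]
      apply Complex.ext <;> simp [pt]
    · intro R X Y L hApp hL
      obtain ⟨X', Y', f1, f2, f3⟩ := g7 R X Y (fun j => X j a - L j) (fun j => X j a + L j) hApp
        (by
          refine ((hApp.app.X_lim a).sub hL).congr fun j => ?_
          push_cast; ring)
        (by
          refine ((hApp.app.X_lim a).add hL).congr fun j => ?_
          push_cast; ring)
      refine ⟨X', Y', f1, ?_⟩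
      filter_upwards [f1.mono] with j hj
      refine pr_eq P hr.hI hr.hK f2 hj.1 hj.2 g2 g4 ?_ ?_
      · rw [(f3 j).1, hs, e]
        unfold lv lpt
        rw [ht]
        ext <;> simp [sub_eq_add_neg]
      · rw [(f3 j).2, hs, e]
        unfold lv lpt
        rw [ht]
        ext <;> simp [sub_eq_add_neg]
  · have ht : P.vert n = (a + 1, b) := by rw [hv]; unfold tail; simp only [h]; norm_num
    have ht' : P.vert n = (a' + 1, b' + 1) := by
      rw [hv']; unfold tail; simp only [h, e]; norm_num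
    have ea : a = a' := by
      rw [ht] at ht'; have := congrArg Prod.fst ht'; simp only at this; omega
    have eb : b = b' + 1 := by rw [ht] at ht'; exact congrArg Prod.snd ht'
    obtain ⟨x', y', I, K, hr, n1, n2, g1, g2, g3, g4, g5, g6, g7⟩ := int_v P hx hy hn
      (by rw [hs]; simp only; omega) (z1 := y b - s) (z2 := y b + s) (by intro h; linarith)
      (by rw [hs']; simp only; rw [eb]; linarith) (by rw [hs']; simp only; rw [eb]; linarith)
      (by rw [hs]; simp only; linarith) (by rw [hs]; simp only; linarith)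
    refine ⟨x', y', I, K, hr, n1, n2, g1, g2, g3, ?_, ?_, ?_⟩
    · rw [g5, ht, hs]
      have : udir k' = Complex.I := by unfold udir; rw [e]; apply Complex.ext <;> simp
      rw [this]
      apply Complex.ext <;> simp [pt]
    · rw [g6, ht, hs]
      have : udir k' = Complex.I := by unfold udir; rw [e]; apply Complex.ext <;> simp
      rw [this]
      apply Complex.ext <;> simp [pt]
    · intro R X Y L hApp hL
      obtain ⟨X', Y', f1, f2, f3⟩ := g7 R X Y (fun j => Y j b - L j) (fun j => Y j b + L j) hApp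
        (by
          refine ((hApp.app.Y_lim b).sub hL).congr fun j => ?_
          push_cast; ring)
        (by
          refine ((hApp.app.Y_lim b).add hL).congr fun j => ?_
          push_cast; ring)
      refine ⟨X', Y', f1, ?_⟩
      filter_upwards [f1.mono] with j hj
      refine pr_eq P hr.hI hr.hK f2 hj.1 hj.2 g2 g4 ?_ ?_
      · rw [(f3 j).1, hs, e]
        unfold lv lpt
        rw [ht]
        ext <;> simp [sub_eq_add_neg]
      · rw [(f3 j).2, hs, e]
        unfold lv lpt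
        rw [ht]
        ext <;> simp [sub_eq_add_neg]
  · have ht : P.vert n = (a + 1, b + 1) := by rw [hv]; unfold tail; simp only [h]; norm_num
    have ht' : P.vert n = (a', b' + 1) := by
      rw [hv']; unfold tail; simp only [h, e]; norm_num
    have ea : a + 1 = a' := by rw [ht] at ht'; exact congrArg Prod.fst ht'
    have eb : b = b' := by
      rw [ht] at ht'; have := congrArg Prod.snd ht'; simp only at this; omega
    subst ea
    obtain ⟨x', y', I, K, hr, n1, n2, g1, g2, g3, g4, g5, g6, g7⟩ := int_h P hx hy hn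
      (by rw [hs]; simp only; omega) (z1 := x (a + 1) + s) (z2 := x (a + 1) - s)
      (by intro h; linarith)
      (by rw [hs']; simp only; linarith) (by rw [hs']; simp only; linarith)
      (by rw [hs]; simp only; linarith) (by rw [hs]; simp only; linarith)
    refine ⟨x', y', I, K, hr, n1, n2, g1, g2, g3, ?_, ?_, ?_⟩
    · rw [g5, ht, hs]
      have : udir k' = -1 := by unfold udir; rw [e]; apply Complex.ext <;> simp
      rw [this]
      apply Complex.ext <;> simp [pt]
    · rw [g6, ht, hs]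
      have : udir k' = -1 := by unfold udir; rw [e]; apply Complex.ext <;> simp
      rw [this]
      apply Complex.ext <;> simp [pt, sub_eq_add_neg]
    · intro R X Y L hApp hL
      obtain ⟨X', Y', f1, f2, f3⟩ := g7 R X Y (fun j => X j (a + 1) + L j)
        (fun j => X j (a + 1) - L j) hApp
        (by
          refine ((hApp.app.X_lim (a + 1)).add hL).congr fun j => ?_
          push_cast; ring)
        (by
          refine ((hApp.app.X_lim (a + 1)).sub hL).congr fun j => ?_
          push_cast; ring)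
      refine ⟨X', Y', f1, ?_⟩
      filter_upwards [f1.mono] with j hj
      refine pr_eq P hr.hI hr.hK f2 hj.1 hj.2 g2 g4 ?_ ?_
      · rw [(f3 j).1, hs, e]
        unfold lv lpt
        rw [ht]
        ext <;> simp [sub_eq_add_neg]
      · rw [(f3 j).2, hs, e]
        unfold lv lpt
        rw [ht]
        ext <;> simp [sub_eq_add_neg]
  · have ht : P.vert n = (a, b + 1) := by rw [hv]; unfold tail; simp only [h]; norm_num
    have ht' : P.vert n = (a', b') := by
      rw [hv']; unfold tail; simp only [h, e]; norm_num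
    have ea : a = a' := by rw [ht] at ht'; exact congrArg Prod.fst ht'
    have eb : b + 1 = b' := by rw [ht] at ht'; exact congrArg Prod.snd ht'
    subst eb
    obtain ⟨x', y', I, K, hr, n1, n2, g1, g2, g3, g4, g5, g6, g7⟩ := int_v P hx hy hn
      (by rw [hs]; simp only; omega) (z1 := y (b + 1) + s) (z2 := y (b + 1) - s)
      (by intro h; linarith)
      (by rw [hs']; simp only; linarith) (by rw [hs']; simp only; linarith)
      (by rw [hs]; simp only; linarith) (by rw [hs]; simp only; linarith)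
    refine ⟨x', y', I, K, hr, n1, n2, g1, g2, g3, ?_, ?_, ?_⟩
    · rw [g5, ht, hs]
      have : udir k' = -Complex.I := by unfold udir; rw [e]; apply Complex.ext <;> simp
      rw [this]
      apply Complex.ext <;> simp [pt]
    · rw [g6, ht, hs]
      have : udir k' = -Complex.I := by unfold udir; rw [e]; apply Complex.ext <;> simp
      rw [this]
      apply Complex.ext <;> simp [pt, sub_eq_add_neg]
    · intro R X Y L hApp hL
      obtain ⟨X', Y', f1, f2, f3⟩ := g7 R X Y (fun j => Y j (b + 1) + L j)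
        (fun j => Y j (b + 1) - L j) hApp
        (by
          refine ((hApp.app.Y_lim (b + 1)).add hL).congr fun j => ?_
          push_cast; ring)
        (by
          refine ((hApp.app.Y_lim (b + 1)).sub hL).congr fun j => ?_
          push_cast; ring)
      refine ⟨X', Y', f1, ?_⟩
      filter_upwards [f1.mono] with j hj
      refine pr_eq P hr.hI hr.hK f2 hj.1 hj.2 g2 g4 ?_ ?_
      · rw [(f3 j).1, hs, e]
        unfold lv lpt
        rw [ht]
        ext <;> simp [sub_eq_add_neg]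
      · rw [(f3 j).2, hs, e]
        unfold lv lpt
        rw [ht]
        ext <;> simp [sub_eq_add_neg]

end Pool.Agent.H5.WH
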