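import Pool.Agent.H5.WH.Mob
import Pool.Agent.H53.W.HDefs

set_option autoImplicit false
open Complex Metric Set Topology Filter

/-! # W-H (H3): the cross ratio in terms of a chart with pole at the vertex `0` -/

namespace Pool.Agent.H5.WH

open Pool.Agent.Q1.M4
open Pool.Agent.H29.M7 (Chart BV)
open Pool.Agent.H19.RH (Cht cc SS crv crv_eq crv_frontier crv_add_N crv_surj two_le_N N_pos lam)
open Pool.Agent.H19.RH.Cht (bt sg crv_bt bt_pos)
open Pool.Agent.H96.M7 (psi)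

variable {P : PType} {x y : ℤ → ℝ} {φ ψ : ℂ → ℂ} {W : ℝ}

lemma vert_phi (C : Cht P x y φ) {n : ℕ} (hn : n < P.N) :
    φ (cc P x y φ (P.N + n)) = pt x y (P.vert n) := by
  have hbt : bt P = P.N - 1 / 2 := rfl
  have h2N : (2 : ℝ) ≤ P.N := by exact_mod_cast two_le_N P
  have h1 : (n : ℝ) + 1 ≤ P.N := by exact_mod_cast hn
  have h0 : (0 : ℝ) ≤ n := by positivity
  have h2 : φ (sg P x y φ ((P.N + n : ℕ) : ℝ)) = crv P x y ((P.N + n : ℕ) : ℝ) := by
    apply C.sg_spec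
    push_cast
    exact ⟨by rw [hbt]; linarith, by rw [hbt]; linarith⟩
  have h3 : crv P x y ((P.N + n : ℕ) : ℝ) = pt x y (P.vert n) := by
    have := crv_add_N P (x := x) (y := y) (u := n) h0
    push_cast
    rw [add_comm, this, crv_eq P (n := n) le_rfl (by linarith)]
    simp [PType.sidePt]
  rw [h3] at h2
  exact h2

/-- **The boundary values of a chart with pole at the vertex `0`.** -/
theorem bdry_val (C : Cht P x y φ) (D : Chart P x y ψ W) : ∃ k : ℝ, 0 < k ∧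
    ∀ n : ℕ, 0 < n → n < P.N → ∀ r : ℝ,
      Tendsto ψ (𝓝[Om P.Q x y] (pt x y (P.vert n))) (𝓝 (r : ℂ)) →
      r = W + k * (1 - cc P x y φ (P.N + P.m) / cc P x y φ (P.N + n)) := by
  obtain ⟨k, hk, hk'⟩ := chart_eq C D
  refine ⟨k, hk, ?_⟩
  intro n h0 hn r hr
  obtain ⟨c0, cp⟩ := cm_pos C
  have s1 : P.N ∈ SS P := Finset.mem_Ico.2 ⟨le_rfl, by omega⟩
  have s2 : P.N + n ∈ SS P := Finset.mem_Ico.2 ⟨by omega, by omega⟩
  have h1 := (C.cc_lt s1 s2).2 (by omega)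
  rw [c0] at h1
  have hlim := Nc_lim C (c := cc P x y φ (P.N + P.m)) h1.ne'
  rw [vert_phi C hn] at hlim
  have hmem : pt x y (P.vert n) ∈ frontier (Om P.Q x y) := by
    have := P.sidePt_mem_frontier C.hx C.hy n (t := 0) (by constructor <;> norm_num)
    simpa [PType.sidePt] using this
  have hne : (𝓝[Om P.Q x y] (pt x y (P.vert n))).NeBot :=
    mem_closure_iff_nhdsWithin_neBot.1 (frontier_subset_closure hmem)
  have h2 : Tendsto ψ (𝓝[Om P.Q x y] (pt x y (P.vert n)))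
      (𝓝 ((W : ℂ) + k * ((1 - cc P x y φ (P.N + P.m) / cc P x y φ (P.N + n) : ℝ) : ℂ))) := by
    refine (tendsto_const_nhds.add (tendsto_const_nhds.mul hlim)).congr' ?_
    filter_upwards [self_mem_nhdsWithin] with z hz
    have := hk' z hz
    linear_combination -this
  have h3 := tendsto_nhds_unique hr h2
  have h4 := congrArg Complex.re h3
  rw [← ofReal_mul, ← ofReal_add, ofReal_re, ofReal_re] at h4
  exact h4

/-- **(H3)** -/
theorem stChLam : Pool.Agent.H53.W.StChLam := by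
  intro P x y φ ψ W C D n1 n2 h1 h12 h2 r1 r2 hr1 hr2
  obtain ⟨k, hk, hb⟩ := bdry_val C D
  have hmN := P.hmN
  obtain ⟨c0, cp⟩ := cm_pos C
  have s0 : P.N ∈ SS P := Finset.mem_Ico.2 ⟨le_rfl, by omega⟩
  have s1 : P.N + n1 ∈ SS P := Finset.mem_Ico.2 ⟨by omega, by omega⟩
  have s2 : P.N + n2 ∈ SS P := Finset.mem_Ico.2 ⟨by omega, by omega⟩
  have s3 : P.N + P.m ∈ SS P := Finset.mem_Ico.2 ⟨by omega, by omega⟩
  have l1 := (C.cc_lt s0 s1).2 (by omega)
  have l2 := (C.cc_lt s1 s2).2 (by omega)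
  have l3 := (C.cc_lt s2 s3).2 (by omega)
  rw [hb n1 h1 (by omega) r1 hr1, hb n2 (by omega) (by omega) r2 hr2]
  unfold lam
  rw [c0] at l1 ⊢
  obtain ⟨c, hc⟩ : ∃ c, cc P x y φ (P.N + P.m) = c := ⟨_, rfl⟩
  obtain ⟨c1, hc1⟩ : ∃ c, cc P x y φ (P.N + n1) = c := ⟨_, rfl⟩
  obtain ⟨c2, hc2⟩ : ∃ c, cc P x y φ (P.N + n2) = c := ⟨_, rfl⟩
  rw [hc] at l3 ⊢
  rw [hc1] at l1 l2 ⊢
  rw [hc2] at l2 l3 ⊢
  have e1 : c1 ≠ 0 := l1.ne'
  have e2 : c2 ≠ 0 := (l1.trans l2).ne'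
  have e3 : c - c1 ≠ 0 := by have := l2.trans l3; intro h; linarith
  have e4 : k ≠ 0 := hk.ne'
  have e5 : W - (W + k * (1 - c / c1)) = k * ((c - c1) / c1) := by field_simp; ring
  have e6 : W + k * (1 - c / c2) - (W + k * (1 - c / c1)) = k * (c * (c2 - c1) / (c1 * c2)) := by
    field_simp; ring
  rw [e5, e6]
  simp only [sub_zero]
  field_simp
  ring

end Pool.Agent.H5.WH
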