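import Pool.Agent.H5.WH.Lam

set_option autoImplicit false
open Complex Metric Set Topology Filter

/-! # W-H: every polygon has a chart with pole at the vertex `0` -/

namespace Pool.Agent.H5.WH

open Pool.Agent.Q1.M4
open Pool.Agent.H29.M7 (Chart BV)
open Pool.Agent.H19.RH (Cht cc SS crv crv_eq crv_frontier crv_add_N crv_surj two_le_N N_pos lam
  exists_cht)
open Pool.Agent.H19.RH.Cht (bt sg crv_bt bt_pos)
open Pool.Agent.H82.Q1 (HH cHH IsChart IsSLE)
open Pool.Agent.H96.M7 (psi psi_left psi_mem psi_right psi_cont psi_UH chart_sub chart_bij HH_sub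
  cHH_closed)

variable {P : PType} {x y : ℤ → ℝ} {φ ψ : ℂ → ℂ} {W : ℝ}

/-- near `b` the preimages are far away -/
lemma psi_far {D : Set ℂ} {a b : ℂ} (h : IsChart D a b φ) :
    Tendsto (fun z => ‖psi φ z‖) (𝓝[D] b) atTop := by
  rw [Filter.tendsto_atTop]
  intro R
  have hK : IsCompact (φ '' (cHH ∩ closedBall (0 : ℂ) R)) :=
    ((isCompact_closedBall _ _).inter_left cHH_closed).image_of_continuousOn
      (h.cont.mono inter_subset_left)
  have hb : b ∉ φ '' (cHH ∩ closedBall (0 : ℂ) R) := fun hb => h.ne (image_mono inter_subset_left hb)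
  have h1 : ∀ᶠ z in 𝓝[D] b, z ∉ φ '' (cHH ∩ closedBall (0 : ℂ) R) :=
    mem_nhdsWithin_of_mem_nhds (hK.isClosed.isOpen_compl.mem_nhds hb)
  filter_upwards [h1, self_mem_nhdsWithin] with z hz hz'
  by_contra hcon
  apply hz
  have h2 : z ∈ φ '' cHH := chart_sub h hz'
  exact ⟨psi φ z, ⟨psi_mem h2, by rw [mem_closedBall, dist_zero_right]; linarith⟩, psi_right h2⟩

/-- the position of a point of a side on the real line -/
lemma side_pos (C : Cht P x y φ) {n : ℕ} {t : ℝ} (ht : t ∈ Icc (0 : ℝ) 1) {u : ℝ}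
    (hu : u ∈ Ioo (bt P) (bt P + P.N)) (h : u = n + t ∨ u = P.N + (n + t)) :
    φ (sg P x y φ u) = P.sidePt x y n t := by
  have h1 : crv P x y u = P.sidePt x y n t := by
    have h2 : crv P x y (n + t) = P.sidePt x y n t := by
      rw [crv_eq P (n := n) (by linarith [ht.1]) (by linarith [ht.2])]
      congr 1
      ring
    rcases h with h | h
    · rw [h, h2]
    · rw [h, add_comm, crv_add_N P (by have := ht.1; positivity), h2]
  rw [← h1]
  exact C.sg_spec hu

/-- **The chart with pole at the vertex `0`.** -/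
theorem mk_chart (C : Cht P x y φ) :
    Chart P x y (fun z => Nc (cc P x y φ (P.N + P.m)) (psi φ z)) 0 := by
  have hx := C.hx
  have hy := C.hy
  have hch : IsChart (Om P.Q x y) (pt x y (P.vert 0)) (P.sidePt x y (P.N - 1) (1 / 2)) φ :=
    C.half.isChart
  obtain ⟨c0, cp⟩ := cm_pos C
  have hbt : bt P = P.N - 1 / 2 := rfl
  have h2N : (2 : ℝ) ≤ P.N := by exact_mod_cast two_le_N P
  have hmN : (P.m : ℝ) + 1 ≤ P.N := by exact_mod_cast P.hmN
  have hm0 : (0 : ℝ) ≤ P.m := by positivity
  have iN : (P.N : ℝ) ∈ Ioo (bt P) (bt P + P.N) := ⟨by rw [hbt]; linarith, by rw [hbt]; linarith⟩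
  have iM : ((P.N + P.m : ℕ) : ℝ) ∈ Ioo (bt P) (bt P + P.N) := by
    push_cast
    exact ⟨by rw [hbt]; linarith, by rw [hbt]; linarith⟩
  have eN : sg P x y φ (P.N : ℝ) = 0 := c0
  obtain ⟨c, hc⟩ : ∃ c, cc P x y φ (P.N + P.m) = c := ⟨_, rfl⟩
  have eM : sg P x y φ ((P.N + P.m : ℕ) : ℝ) = c := hc
  rw [hc] at cp ⊢
  have hpd := psi_diff C
  have hpim : ∀ z ∈ Om P.Q x y, 0 < (psi φ z).im := fun z hz => psi_UH hch hz
  have hpne : ∀ z ∈ Om P.Q x y, psi φ z ≠ 0 := by
    intro z hz h
    have := hpim z hz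
    rw [h] at this
    simp at this
  refine ⟨?_, ?_, ?_, ?_, ?_⟩
  · unfold Nc
    exact (differentiableOn_const _).sub ((differentiableOn_const _).div hpd hpne)
  · intro z hz
    exact Nc_im cp (hpim z hz)
  · intro n hn t ht hnm
    have hn1 : (n : ℝ) + 1 ≤ P.m := by exact_mod_cast hn
    have hn0 : (0 : ℝ) ≤ n := by positivity
    have p1 : (n : ℝ) + t ≠ 0 := by
      intro h
      have h1 : (n : ℝ) = 0 := by linarith [ht.1]
      have h2 : t = 0 := by linarith [ht.1]
      have h3 : n = 0 := by exact_mod_cast h1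
      apply hnm
      rw [h2, h3, P.sidePt_zero]
      simp [PType.marks]
    have p2 : (n : ℝ) + t ≠ P.m := by
      intro h
      have h1 : (n : ℝ) + 1 = P.m := by linarith [ht.2]
      have h2 : t = 1 := by linarith [ht.2]
      have h3 : n + 1 = P.m := by exact_mod_cast h1
      apply hnm
      rw [h2, P.sidePt_one, h3]
      simp [PType.marks]
    have p1' : 0 < (n : ℝ) + t := lt_of_le_of_ne (by linarith [ht.1]) (Ne.symm p1)
    have p2' : (n : ℝ) + t < P.m := lt_of_le_of_ne (by linarith [ht.2]) p2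
    have hu : (P.N : ℝ) + (n + t) ∈ Ioo (bt P) (bt P + P.N) := by
      rw [hbt]
      constructor <;> linarith
    have h1 := side_pos C ht hu (Or.inr rfl)
    have a1 := C.sg_mono iN hu (by linarith)
    have a2 := C.sg_mono hu iM (by push_cast; linarith)
    rw [eN] at a1
    rw [eM] at a2
    refine ⟨1 - c / sg P x y φ (P.N + (n + t)), ?_, ?_⟩
    swap
    · rw [← h1]
      exact Nc_lim C a1.ne'
    · have : 1 < c / sg P x y φ (P.N + (n + t)) := by rw [lt_div_iff₀ a1]; linarith
      linarith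
  · intro n hn hn' t ht hnm
    have hn1 : (n : ℝ) + 1 ≤ P.N := by exact_mod_cast hn'
    have hn0 : (P.m : ℝ) ≤ n := by exact_mod_cast hn
    have p1 : (n : ℝ) + t ≠ P.N := by
      intro h
      have h1 : (n : ℝ) + 1 = P.N := by linarith [ht.2]
      have h2 : t = 1 := by linarith [ht.2]
      have h3 : n + 1 = P.N := by exact_mod_cast h1
      apply hnm
      rw [h2, P.sidePt_one, h3, P.vert_N]
      simp [PType.marks]
    have p2 : (n : ℝ) + t ≠ P.m := by
      intro h
      have h1 : (n : ℝ) = P.m := by linarith [ht.1]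
      have h2 : t = 0 := by linarith [ht.1]
      have h3 : n = P.m := by exact_mod_cast h1
      apply hnm
      rw [h2, h3, P.sidePt_zero]
      simp [PType.marks]
    have p1' : (n : ℝ) + t < P.N := lt_of_le_of_ne (by linarith [ht.2]) p1
    have p2' : (P.m : ℝ) < n + t := lt_of_le_of_ne (by linarith [ht.1]) (Ne.symm p2)
    rcases lt_trichotomy ((n : ℝ) + t) (bt P) with h | h | h
    · have hu : (P.N : ℝ) + (n + t) ∈ Ioo (bt P) (bt P + P.N) := by
        rw [hbt] at h ⊢
        constructor <;> linarith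
      have h1 := side_pos C ht hu (Or.inr rfl)
      have a2 := C.sg_mono iM hu (by push_cast; linarith)
      rw [eM] at a2
      have a1 := cp.trans a2
      refine ⟨1 - c / sg P x y φ (P.N + (n + t)), ?_, ?_⟩
      swap
      · rw [← h1]
        exact Nc_lim C a1.ne'
      · have : c / sg P x y φ (P.N + (n + t)) < 1 := by rw [div_lt_one a1]; exact a2
        linarith
    · -- the point `b`
      have h1 : P.sidePt x y n t = P.sidePt x y (P.N - 1) (1 / 2) := by
        have h3 : ((P.N - 1 : ℕ) : ℝ) = (P.N : ℝ) - 1 := by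
          have := two_le_N P
          rw [Nat.cast_sub (by omega)]; simp
        have h4 : n = P.N - 1 := by
          rw [hbt] at h
          have h5 : (n : ℝ) < P.N := by linarith [ht.1]
          have h6 : (P.N : ℝ) < (n + 2 : ℕ) := by push_cast; linarith [ht.2]
          have h7 : n < P.N := by exact_mod_cast h5
          have h8 : P.N < n + 2 := by exact_mod_cast h6
          omega
        subst h4
        rw [h3, hbt] at h
        congr 1
        linarith
      refine ⟨1, one_pos, ?_⟩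
      rw [h1]
      have h2 := psi_far hch
      have h3 : Tendsto (fun z => (c : ℂ) / psi φ z) (𝓝[Om P.Q x y] (P.sidePt x y (P.N - 1) (1 / 2)))
          (𝓝 0) := by
        rw [tendsto_zero_iff_norm_tendsto_zero]
        have h4 := h2.const_div_atTop ‖(c : ℂ)‖
        refine h4.congr fun z => ?_
        rw [norm_div]
      have h4 : Tendsto (fun z => (1 : ℂ) - (c : ℂ) / psi φ z)
          (𝓝[Om P.Q x y] (P.sidePt x y (P.N - 1) (1 / 2))) (𝓝 (1 - 0)) := tendsto_const_nhds.sub h3
      rw [sub_zero] at h4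
      unfold Nc
      rw [ofReal_one]
      exact h4
    · have hu : (n : ℝ) + t ∈ Ioo (bt P) (bt P + P.N) := by
        refine ⟨h, ?_⟩
        rw [hbt]; linarith
      have h1 := side_pos C ht hu (Or.inl rfl)
      have a1 := C.sg_mono hu iN p1'
      rw [eN] at a1
      refine ⟨1 - c / sg P x y φ (n + t), ?_, ?_⟩
      swap
      · rw [← h1]
        exact Nc_lim C a1.ne
      · have : c / sg P x y φ (n + t) < 0 := div_neg_of_pos_of_neg cp a1
        linarith
  · -- the pole
    have htm : (0 : ℂ) ∈ cHH := by change (0 : ℝ) ≤ (0 : ℂ).im; simp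
    have h1 : Tendsto (psi φ) (𝓝[φ '' cHH] (φ 0)) (𝓝 (psi φ (φ 0))) :=
      (psi_cont hch) _ ⟨_, htm, rfl⟩
    rw [psi_left hch htm, hch.zero] at h1
    have h2 := h1.mono_left (nhdsWithin_mono _ (chart_sub hch))
    have h3 : Tendsto (fun z => ‖psi φ z‖) (𝓝[Om P.Q x y] (pt x y (P.vert 0))) (𝓝[>] 0) := by
      refine tendsto_nhdsWithin_of_tendsto_nhds_of_eventually_within _ ?_ ?_
      · have := h2.norm
        rwa [norm_zero] at this
      · filter_upwards [self_mem_nhdsWithin] with z hz
        exact norm_pos_iff.2 (hpne z hz)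
    have h4 : Tendsto (fun z => c * ‖psi φ z‖⁻¹ - 1) (𝓝[Om P.Q x y] (pt x y (P.vert 0))) atTop :=
      tendsto_atTop_add_const_right _ _ ((h3.inv_tendsto_nhdsGT_zero).const_mul_atTop cp)
    refine tendsto_atTop_mono (fun z => ?_) h4
    have h5 : ‖(c : ℂ) / psi φ z‖ = c * ‖psi φ z‖⁻¹ := by
      rw [norm_div, norm_real, Real.norm_eq_abs, abs_of_pos cp, div_eq_mul_inv]
    unfold Nc
    rw [← h5]
    have h6 := norm_sub_norm_le ((c : ℂ) / psi φ z) 1
    rw [norm_one, norm_sub_rev] at h6
    exact h6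

/-- every polygon has a chart -/
theorem exists_chart (P : PType) (hx : StrictMono x) (hy : StrictMono y) :
    ∃ ψ W, Chart P x y ψ W := by
  obtain ⟨φ, C⟩ := exists_cht P hx hy
  exact ⟨_, _, mk_chart C⟩

end Pool.Agent.H5.WH
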