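import Mathlib
import Pool.Agent.H29.M7.Within
import Pool.Agent.H19.RH.Sol
import Pool.Agent.H96.M7.Chart
import Pool.Agent.H69.Car.Uniq
import Pool.Agent.H83.Lo.Psi2
import Pool.Agent.H19.Rado.Disc

set_option autoImplicit false
open Complex Metric Set Topology Filter

/-! # W-H: the charts of M7 are Moebius images of the charts of M6 -/

namespace Pool.Agent.H5.WH

open Pool.Agent.Q1.M4
open Pool.Agent.H29.M7 (Chart BV arc_free arc_wired arcs_cover marks_not_mem arg_tendsto_zero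
  arg_tendsto_pi)
open Pool.Agent.H19.RH (Cht cc SS crv crv_eq crv_frontier crv_add_N crv_surj two_le_N N_pos)
open Pool.Agent.H19.RH.Cht (bt sg crv_bt bt_pos)
open Pool.Agent.H69.Car (IsHalf HC HO)
open Pool.Agent.H19.Rado (HO_isOpen)
open Pool.Agent.H82.Q1 (HH cHH IsChart)
open Pool.Agent.H96.M7 (psi psi_left psi_mem psi_right psi_cont psi_UH chart_sub chart_bij HH_sub)

variable {P : PType} {x y : ℤ → ℝ} {φ ψ : ℂ → ℂ} {W : ℝ}

/-- the Moebius map with the pole `0` and the zero `c` -/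
noncomputable def Nc (c : ℝ) (z : ℂ) : ℂ := 1 - c / z

lemma Nc_im {c : ℝ} (hc : 0 < c) {z : ℂ} (hz : 0 < z.im) : 0 < (Nc c z).im := by
  unfold Nc
  have h0 : 0 < normSq z := by
    rw [normSq_pos]
    intro h; rw [h] at hz; simp at hz
  have e : (1 - (c : ℂ) / z).im = c * z.im / normSq z := by
    rw [sub_im, one_im, div_im, ofReal_re, ofReal_im]
    field_simp
    ring
  rw [e]
  positivity

/-- parameter of a boundary point -/
lemma exists_par (C : Cht P x y φ) {w : ℂ} (hw : w ∈ frontier (Om P.Q x y))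
    (hb : w ≠ P.sidePt x y (P.N - 1) (1 / 2)) (hm : w ∉ P.marks x y) :
    ∃ u ∈ Ioo (bt P) (bt P + P.N), crv P x y u = w ∧ φ (sg P x y φ u) = w ∧
      ((∃ n < P.m, ∃ t ∈ Icc (0 : ℝ) 1, w = P.sidePt x y n t) ∧ (P.N : ℝ) < u ∧ u < P.N + P.m ∨
      (∃ n, P.m ≤ n ∧ n < P.N ∧ ∃ t ∈ Icc (0 : ℝ) 1, w = P.sidePt x y n t) ∧
        (u < P.N ∨ (P.N : ℝ) + P.m < u)) := by
  have h1 : w ∈ frontier (Om P.Q x y) \ {P.sidePt x y (P.N - 1) (1 / 2)} := ⟨hw, hb⟩
  rw [← C.half.image_real (isOpen_Om _ _ _)] at h1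
  obtain ⟨z, hz, hz'⟩ := h1
  obtain ⟨u, hu, hu'⟩ := C.sg_surj z.re
  have hzr : ((z.re : ℝ) : ℂ) = z :=
    Complex.ext (by simp) (by simpa using (show z.im = 0 from hz).symm)
  have h2 : φ (sg P x y φ u) = w := by rw [hu', hzr, hz']
  have h3 : crv P x y u = w := by rw [← C.sg_spec hu, h2]
  refine ⟨u, hu, h3, h2, ?_⟩
  have hN := N_pos P
  have h2N := two_le_N P
  have hmN := P.hmN
  have hbt : bt P = P.N - 1 / 2 := rfl
  rw [hbt] at hu
  have hu0 : 0 < u := by
    have : (2 : ℝ) ≤ P.N := by exact_mod_cast h2N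
    linarith [hu.1]
  obtain ⟨k, hk⟩ : ∃ k, ⌊u⌋₊ = k := ⟨_, rfl⟩
  have k1 : (k : ℝ) ≤ u := by rw [← hk]; exact Nat.floor_le hu0.le
  have k2 : u < k + 1 := by rw [← hk]; exact Nat.lt_floor_add_one u
  have hside : w = P.sidePt x y k (u - k) := by rw [← h3, crv_eq P k1 k2.le]
  have hti : u - k ∈ Icc (0 : ℝ) 1 := ⟨by linarith, by linarith⟩
  have hper : ∀ n t, P.sidePt x y (n + P.N) t = P.sidePt x y n t := fun n t =>
    Pool.Agent.H19.RH.sidePt_add_N P n t
  rcases lt_or_ge u P.N with g1 | g1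
  · right
    have : k = P.N - 1 := by
      have a1 : (k : ℝ) < P.N := lt_of_le_of_lt k1 g1
      have a2 : (P.N : ℝ) - 1 < k + 1 := by linarith [hu.1]
      have a3 : k < P.N := by exact_mod_cast a1
      have a4 : (P.N : ℝ) < (k + 2 : ℕ) := by push_cast; linarith
      have a5 : P.N < k + 2 := by exact_mod_cast a4
      omega
    exact ⟨⟨k, by omega, by omega, _, hti, hside⟩, Or.inl g1⟩
  · have a1 : P.N ≤ k := by rw [← hk]; exact Nat.le_floor g1
    obtain ⟨n, rfl⟩ : ∃ n, k = n + P.N := ⟨k - P.N, by omega⟩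
    rw [hper] at hside
    have e0 : ((n + P.N : ℕ) : ℝ) = n + P.N := by push_cast; ring
    rw [e0] at k1 k2
    have hnN : n < P.N := by
      have : (n : ℝ) < P.N := by linarith [hu.2]
      exact_mod_cast this
    rcases lt_or_ge n P.m with g2 | g2
    · left
      refine ⟨⟨n, g2, _, hti, hside⟩, ?_, ?_⟩
      · refine lt_of_le_of_ne g1 ?_
        intro he
        apply hm
        have : w = pt x y (P.vert 0) := by
          rw [← h3, ← he]
          have := crv_add_N P (x := x) (y := y) (u := 0) le_rfl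
          rw [zero_add] at this
          rw [this, crv_eq P (n := 0) (by simp) (by simp)]
          simp [PType.sidePt]
        rw [this]
        simp [PType.marks]
      · have : ((n + 1 : ℕ) : ℝ) ≤ (P.m : ℕ) := by exact_mod_cast g2
        push_cast at this
        linarith
    · right
      refine ⟨⟨n, g2, hnN, _, hti, hside⟩, Or.inr ?_⟩
      have : ((P.m : ℕ) : ℝ) ≤ n := by exact_mod_cast g2
      refine lt_of_le_of_ne (by linarith) ?_
      intro he
      apply hm
      have : w = pt x y (P.vert P.m) := by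
        rw [← h3, ← he]
        have := crv_add_N P (x := x) (y := y) (u := P.m) (by positivity)
        rw [add_comm] at this
        rw [this, crv_eq P (n := P.m) le_rfl (by linarith)]
        simp [PType.sidePt]
      rw [this]
      simp [PType.marks]

/-- limits of the Moebius chart at the boundary -/
lemma Nc_lim (C : Cht P x y φ) {t c : ℝ} (ht : t ≠ 0) :
    Tendsto (fun z => Nc c (psi φ z)) (𝓝[Om P.Q x y] (φ t)) (𝓝 ((1 - c / t : ℝ) : ℂ)) := by
  have hch : IsChart (Om P.Q x y) (pt x y (P.vert 0)) (P.sidePt x y (P.N - 1) (1 / 2)) φ :=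
    C.half.isChart
  have htm : (t : ℂ) ∈ cHH := by change (0 : ℝ) ≤ (t : ℂ).im; simp
  have h1 : Tendsto (psi φ) (𝓝[φ '' cHH] (φ t)) (𝓝 (psi φ (φ t))) :=
    (psi_cont hch) _ ⟨_, htm, rfl⟩
  rw [psi_left hch htm] at h1
  have h2 := h1.mono_left (nhdsWithin_mono _ (chart_sub hch))
  unfold Nc
  push_cast
  have h3 : (t : ℂ) ≠ 0 := by exact_mod_cast ht
  exact tendsto_const_nhds.sub (tendsto_const_nhds.div h2 h3)

/-- the preimages of the marks -/
lemma cm_pos (C : Cht P x y φ) : cc P x y φ P.N = 0 ∧ 0 < cc P x y φ (P.N + P.m) := by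
  have hN := N_pos P
  have hm0 := P.hm0
  have hmN := P.hmN
  have s1 : P.N ∈ SS P := Finset.mem_Ico.2 ⟨le_rfl, by omega⟩
  have s2 : P.N + P.m ∈ SS P := Finset.mem_Ico.2 ⟨by omega, by omega⟩
  have h1 := (C.cc_lt s1 s2).2 (by omega)
  have h0 : cc P x y φ P.N = 0 := by
    have hbt : bt P = P.N - 1 / 2 := rfl
    have h2N : (2 : ℝ) ≤ P.N := by exact_mod_cast two_le_N P
    have h2 : φ (sg P x y φ (P.N : ℝ)) = crv P x y (P.N : ℝ) :=
      C.sg_spec ⟨by rw [hbt]; linarith, by rw [hbt]; linarith⟩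
    have h3 : crv P x y (P.N : ℝ) = pt x y (P.vert 0) := by
      have := crv_add_N P (x := x) (y := y) (u := 0) le_rfl
      rw [zero_add] at this
      rw [this, crv_eq P (n := 0) (by simp) (by simp)]
      simp [PType.sidePt]
    rw [h3, ← C.half.zero] at h2
    have h4 := C.half.inj_real (x := sg P x y φ (P.N : ℝ)) (y := 0) (by rw [h2]; simp)
    exact h4
  exact ⟨h0, by rw [h0] at h1; exact h1⟩

/-- **The value of the Moebius chart on the arcs.** -/
lemma arc_sign (C : Cht P x y φ) {w : ℂ} (hw : w ∈ frontier (Om P.Q x y))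
    (hb : w ≠ P.sidePt x y (P.N - 1) (1 / 2)) (hm : w ∉ P.marks x y) :
    ∃ t : ℝ, t ≠ 0 ∧ φ t = w ∧
      (((∃ n < P.m, ∃ s ∈ Icc (0 : ℝ) 1, w = P.sidePt x y n s) ∧
        1 - cc P x y φ (P.N + P.m) / t < 0) ∨
      ((∃ n, P.m ≤ n ∧ n < P.N ∧ ∃ s ∈ Icc (0 : ℝ) 1, w = P.sidePt x y n s) ∧
        0 < 1 - cc P x y φ (P.N + P.m) / t)) := by
  obtain ⟨u, hu, h1, h2, h3⟩ := exists_par C hw hb hm
  obtain ⟨c0, cp⟩ := cm_pos C
  have hbt : bt P = P.N - 1 / 2 := rfl
  have h2N : (2 : ℝ) ≤ P.N := by exact_mod_cast two_le_N P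
  have hmN : (P.m : ℝ) + 1 ≤ P.N := by exact_mod_cast P.hmN
  have hm0 : (0 : ℝ) ≤ P.m := by positivity
  have iN : (P.N : ℝ) ∈ Ioo (bt P) (bt P + P.N) := ⟨by rw [hbt]; linarith, by rw [hbt]; linarith⟩
  have iM : ((P.N + P.m : ℕ) : ℝ) ∈ Ioo (bt P) (bt P + P.N) := by
    push_cast
    exact ⟨by rw [hbt]; linarith, by rw [hbt]; linarith⟩
  have eN : sg P x y φ (P.N : ℝ) = 0 := c0
  obtain ⟨c, hc⟩ : ∃ c, cc P x y φ (P.N + P.m) = c := ⟨_, rfl⟩
  have eM : sg P x y φ ((P.N + P.m : ℕ) : ℝ) = c := hc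
  rw [hc] at cp ⊢
  obtain ⟨t, ht⟩ : ∃ t, sg P x y φ u = t := ⟨_, rfl⟩
  rw [ht] at h2
  rcases h3 with ⟨h3, h4, h5⟩ | ⟨h3, h4 | h4⟩
  · have a1 := C.sg_mono iN hu h4
    have a2 := C.sg_mono hu iM (by push_cast; exact h5)
    rw [eN, ht] at a1
    rw [eM, ht] at a2
    refine ⟨t, a1.ne', h2, Or.inl ⟨h3, ?_⟩⟩
    have : 1 < c / t := by rw [lt_div_iff₀ a1]; linarith
    linarith
  · have a1 := C.sg_mono hu iN h4
    rw [eN, ht] at a1
    refine ⟨t, a1.ne, h2, Or.inr ⟨h3, ?_⟩⟩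
    have : c / t < 0 := div_neg_of_pos_of_neg cp a1
    linarith
  · have a1 := C.sg_mono iM hu (by push_cast; exact h4)
    rw [eM, ht] at a1
    have a2 : 0 < t := cp.trans a1
    refine ⟨t, a2.ne', h2, Or.inr ⟨h3, ?_⟩⟩
    have : c / t < 1 := by rw [div_lt_one a2]; exact a1
    linarith

lemma psi_diff (C : Cht P x y φ) : DifferentiableOn ℂ (psi φ) (Om P.Q x y) := by
  have hch : IsChart (Om P.Q x y) (pt x y (P.vert 0)) (P.sidePt x y (P.N - 1) (1 / 2)) φ :=
    C.half.isChart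
  have h1 : DifferentiableOn ℂ (psi φ) (φ '' HH) :=
    Pool.Agent.H83.Lo.differentiableOn_inv HO_isOpen hch.diff (hch.inj.mono HH_sub)
      (fun z hz => psi_left hch (HH_sub hz))
  rwa [hch.image] at h1

/-- **The charts of M7 are Moebius images.** -/
theorem chart_eq (C : Cht P x y φ) (D : Chart P x y ψ W) : ∃ k : ℝ, 0 < k ∧
    ∀ z ∈ Om P.Q x y, ψ z - W = k * Nc (cc P x y φ (P.N + P.m)) (psi φ z) := by
  have hx := C.hx
  have hy := C.hy
  have hch : IsChart (Om P.Q x y) (pt x y (P.vert 0)) (P.sidePt x y (P.N - 1) (1 / 2)) φ :=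
    C.half.isChart
  obtain ⟨c0, cp⟩ := cm_pos C
  obtain ⟨c, hc⟩ : ∃ c, cc P x y φ (P.N + P.m) = c := ⟨_, rfl⟩
  rw [hc] at cp ⊢
  have hopen := isOpen_Om P.Q x y
  have hconn := (P.geoHyp hx hy).conn
  have hpd := psi_diff C
  have hpim : ∀ z ∈ Om P.Q x y, 0 < (psi φ z).im := fun z hz => psi_UH hch hz
  have hNim : ∀ z ∈ Om P.Q x y, 0 < (Nc c (psi φ z)).im := fun z hz => Nc_im cp (hpim z hz)
  have hpne : ∀ z ∈ Om P.Q x y, psi φ z ≠ 0 := by
    intro z hz h
    have := hpim z hz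
    rw [h] at this
    simp at this
  have hNd : DifferentiableOn ℂ (fun z => Nc c (psi φ z)) (Om P.Q x y) := by
    unfold Nc
    exact (differentiableOn_const _).sub ((differentiableOn_const _).div hpd hpne)
  have hs1 : ∀ z ∈ Om P.Q x y, ψ z - W ∈ slitPlane := by
    intro z hz
    rw [mem_slitPlane_iff]
    right
    have := D.pos z hz
    simp only [sub_im, ofReal_im, sub_zero]
    exact this.ne'
  have hs2 : ∀ z ∈ Om P.Q x y, Nc c (psi φ z) ∈ slitPlane := fun z hz => by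
    rw [mem_slitPlane_iff]
    exact Or.inr (hNim z hz).ne'
  obtain ⟨F, hF⟩ : ∃ F : ℂ → ℂ, F = fun z => log (ψ z - W) - log (Nc c (psi φ z)) := ⟨_, rfl⟩
  have hFz : ∀ z, F z = log (ψ z - W) - log (Nc c (psi φ z)) := fun z => by rw [hF]
  have hFd : DifferentiableOn ℂ F (Om P.Q x y) := by
    rw [hF]
    exact ((D.holo.sub_const _).clog hs1).sub (hNd.clog hs2)
  have him : ∀ z ∈ Om P.Q x y, (F z).im = 0 := by
    refine _root_.Q1.im_const hopen hconn (isBounded_Om _ _ _)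
      (insert (P.sidePt x y (P.N - 1) (1 / 2)) (P.marks x y)) ?_ hFd (M := 2 * Real.pi) ?_ ?_
    · intro a ha
      rw [Finset.mem_insert] at ha
      rcases ha with rfl | ha
      · have := P.sidePt_mem_frontier hx hy (P.N - 1) (t := 1 / 2) (by constructor <;> norm_num)
        rw [hopen.frontier_eq] at this
        exact this.2
      · exact marks_not_mem hx hy a ha
    · intro z _
      rw [hFz, sub_im, log_im, log_im]
      have a1 := abs_arg_le_pi (ψ z - W)
      have a2 := abs_arg_le_pi (Nc c (psi φ z))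
      have a3 := abs_sub (arg (ψ z - W)) (arg (Nc c (psi φ z)))
      linarith
    · intro w hw hwZ
      rw [Finset.mem_insert, not_or] at hwZ
      obtain ⟨t, ht0, htw, h⟩ := arc_sign C hw hwZ.1 hwZ.2
      rw [hc] at h
      have hlim := Nc_lim C (c := c) ht0
      rw [htw] at hlim
      have hF' : (fun z => (F z).im) = fun z => (log (ψ z - W)).im - (log (Nc c (psi φ z))).im := by
        funext z; rw [hFz, sub_im]
      rw [hF']
      have hev : ∀ᶠ z in 𝓝[Om P.Q x y] w, z ∈ Om P.Q x y := self_mem_nhdsWithin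
      rcases h with ⟨⟨n, hn, s, hs, hws⟩, hneg⟩ | ⟨⟨n, hn, hn', s, hs, hws⟩, hpos⟩
      · obtain ⟨r, hr, hr'⟩ := D.free n hn s hs (by rw [← hws]; exact hwZ.2)
        rw [← hws] at hr'
        have l1 := arg_tendsto_pi hr hr' (hev.mono fun z hz => D.pos z hz)
        have l2 := arg_tendsto_pi (W := 0) hneg hlim (hev.mono fun z hz => hNim z hz)
        have l3 := l1.sub l2
        rw [sub_self] at l3
        refine l3.congr fun z => ?_
        simp only [ofReal_zero, sub_zero]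
      · obtain ⟨r, hr, hr'⟩ := D.wired n hn hn' s hs (by rw [← hws]; exact hwZ.2)
        rw [← hws] at hr'
        have l1 := arg_tendsto_zero hr hr'
        have l2 := arg_tendsto_zero (W := 0) hpos hlim
        have l3 := l1.sub l2
        rw [sub_self] at l3
        refine l3.congr fun z => ?_
        simp only [ofReal_zero, sub_zero]
  -- constancy
  have hder : ∀ z ∈ Om P.Q x y, deriv F z = 0 :=
    _root_.Q1.deriv_eq_zero_of_im_const hopen
      (fun z hz => (hFd.differentiableAt (hopen.mem_nhds hz)).hasDerivAt) him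
  obtain ⟨z0, hz0⟩ : (Om P.Q x y).Nonempty := by
    rw [← hch.image]
    exact ⟨φ I, I, by change (0:ℝ) < I.im; simp, rfl⟩
  have hconst : ∀ z ∈ Om P.Q x y, F z = F z0 := by
    intro z hz
    exact hopen.is_const_of_deriv_eq_zero hconn hFd (fun w hw => hder w hw) hz hz0
  have hreal : F z0 = ((F z0).re : ℂ) := by
    apply Complex.ext
    · simp
    · rw [him z0 hz0]; simp
  refine ⟨Real.exp (F z0).re, Real.exp_pos _, ?_⟩
  intro z hz
  have h1 := hconst z hz
  rw [hFz z, hreal] at h1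
  have h2 : log (ψ z - W) = ((F z0).re : ℂ) + log (Nc c (psi φ z)) := by
    rw [← h1]; ring
  have h3 := congrArg exp h2
  rw [exp_log (slitPlane_ne_zero (hs1 z hz)), exp_add, exp_log (slitPlane_ne_zero (hs2 z hz))] at h3
  rw [h3]
  push_cast
  rfl

end Pool.Agent.H5.WH
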