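import Pool.Agent.H5.WH.Val
import Pool.Agent.H91.Q1.B2Fin
import Pool.Agent.H76.M7.Top
import Pool.Agent.H5.C3.Main
import Pool.Agent.H53.ZF.Full

set_option autoImplicit false
open Complex Metric Set Topology Filter

/-! # W-H: the identification of the limit from Cardy's formula -/

namespace Pool.Agent.H5.WH

open Pool.Agent.Q1.M4
open Pool.Agent.Q1.M5 (hh lv FlatV App EL CT sV CI StA StB2 StPz)
open Pool.Agent.H29.M7 (Chart BV LocM IsG StExp exists_app1)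
open Pool.Agent.H5.C3 (StC3V)

/-- **The explicit form of the one-point function, from Cardy's formula.** -/
theorem stExp_of (hC : StC3V) : ∃ pz : ℝ → ℝ, StPz pz ∧ StExp pz := by
  obtain ⟨pz, hpz, hB2⟩ := Pool.Agent.H91.Q1.stB2 (stA_of hC)
  refine ⟨pz, hpz, ?_⟩
  intro k
  by_cases hex : ∃ (P : PType) (x y : ℤ → ℝ) (n : ℕ), StrictMono x ∧ StrictMono y ∧ FlatV P n
  swap
  · refine ⟨1, one_pos, ?_⟩
    intro P x y ψ W hx hy h1 h2 hC n hn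
    exact absurd ⟨P, x, y, n, hx, hy, hn⟩ hex
  obtain ⟨P0, x0, y0, n0, hx0, hy0, hn0⟩ := hex
  obtain ⟨ψ0, W0, C0⟩ := exists_chart P0 hx0 hy0
  obtain ⟨r0, D0, hr0, hD0, hb0⟩ := C0.exists_bv hx0 hy0 hn0
  obtain ⟨g0, hg0, hG0⟩ := hB2 P0 x0 y0 hx0 hy0 n0 hn0
  have q0 : 0 < (D0 / (W0 - r0)) ^ (1 / 3 : ℝ) :=
    Real.rpow_pos_of_pos (div_pos hD0 (by linarith)) _
  refine ⟨g0 / (D0 / (W0 - r0)) ^ (1 / 3 : ℝ), div_pos hg0 q0, ?_⟩
  intro P x y ψ W hx hy _ _ C n hn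
  obtain ⟨r, D, hr, hD, hb⟩ := C.exists_bv hx hy hn
  obtain ⟨g, hg, hG⟩ := hB2 P x y hx hy n hn
  refine ⟨r, D, hr, hD, hb, ?_⟩
  obtain ⟨X, Y, hA⟩ := exists_app1 hx hy
  obtain ⟨X0, Y0, hA0⟩ := exists_app1 hx0 hy0
  have t1 := ratio_val hC hx hy hx0 hy0 C C0 hn hn0 hr hD hb hr0 hD0 hb0 hA hA0
  have t2 := (hG _ X Y hA).div (hG0 _ X0 Y0 hA0) hg0.ne'
  have t3 : Tendsto (fun j : ℕ => hh P (X j) (Y j) (lv P (X j) (Y j) n) /
      hh P0 (X0 j) (Y0 j) (lv P0 (X0 j) (Y0 j) n0)) atTop (𝓝 (g / g0)) := by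
    refine t2.congr fun j => ?_
    simp only [Pi.div_apply]
    rw [div_div_div_cancel_right₀ (hpz.1 _).ne']
  have t4 := tendsto_nhds_unique t3 t1
  have t5 : g0 / (D0 / (W0 - r0)) ^ (1 / 3 : ℝ) * (D / (W - r)) ^ (1 / 3 : ℝ) = g := by
    rw [div_eq_div_iff hg0.ne' q0.ne'] at t4
    field_simp
    linarith
  rw [t5]
  exact hG

/-- **Convergence to SLE(6), from Cardy's formula.** -/
theorem q1sle_of_c3v (hC : StC3V) : Pool.Agent.H82.Q1.Q1SLE := by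
  obtain ⟨pz, h1, h2⟩ := stExp_of hC
  exact Pool.Agent.H76.M7.q1sle_of_exp h1 h2

/-- **Everything from Cardy's formula for generic shapes.** -/
theorem full_of_shapeG (h : Pool.Agent.H5.C3.StShapeG) : Pool.Agent.H53.ZF.Full :=
  Pool.Agent.H53.ZF.full_of_q1sle (q1sle_of_c3v (Pool.Agent.H5.C3.stC3V_of_shapeG h))

end Pool.Agent.H5.WH
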