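import Pool.Agent.H5.WH.Int
import Pool.Agent.H5.WH.Inc
import Pool.Agent.H5.WH.CardyS
import Pool.Agent.H5.WH.Mk
import Pool.Agent.H53.W.RL

set_option autoImplicit false
open Complex Metric Set Topology Filter

/-! # W-H (H6): the value of the ratio of two one-point functions -/

namespace Pool.Agent.H5.WH

open Pool.Agent.Q1.M4
open Pool.Agent.Q1.M5 (hh lv FlatV App EL CT sV CI StA StB2 StPz)
open Pool.Agent.H29.M7 (Chart BV LocM om_ref)
open Pool.Agent.H19.RH (Cht lam exists_cht)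
open Pool.Agent.H13.Q1.Four (cardy cardy_symm cardy_zero cardy_strictMono)
open Pool.Agent.H5.C3 (StC3V lam_mem)
open Pool.Agent.H75.Perc (dir Pr)

variable {P P' : PType} {x y x' y' : ℤ → ℝ} {ψ ψ' : ℂ → ℂ} {W W' : ℝ}

/-- The limit of the probability of a small interval. -/
theorem int_lim (hC : StC3V) (hx : StrictMono x) (hy : StrictMono y) (C : Chart P x y ψ W)
    {n : ℕ} (hn : FlatV P n) {r D : ℝ} (hr : r < W) (hD : 0 < D) (hb : BV P x y ψ n r D)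
    {κ : ℝ} (hκ : Tendsto (fun l => cardy l / l ^ (1 / 3 : ℝ)) (𝓝[>] 0) (𝓝 κ)) :
    ∃ ρ > 0, ∃ f : ℝ → ℝ, Tendsto (fun s => f s / s ^ (1 / 3 : ℝ)) (𝓝[>] 0)
      (𝓝 (κ * (2 * D / (W - r)) ^ (1 / 3 : ℝ))) ∧
    ∀ s : ℝ, 0 < s → s < ρ → 0 < f s ∧ ∀ (R : ℕ → ℝ) (X Y : ℕ → ℤ → ℤ) (L : ℕ → ℤ),
      App x y R X Y → Tendsto (fun j => (L j : ℝ) / R j) atTop (𝓝 s) →
      Tendsto (fun j => PI P (X j) (Y j) n (L j)) atTop (𝓝 (f s)) := by
  obtain ⟨ρ1, hρ1, g, hg, hg'⟩ := stInc P x y ψ W hx hy C n hn r D hb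
  obtain ⟨ρ2, hρ2, hint⟩ := exists_int P hx hy hn
  obtain ⟨h, hh'⟩ : ∃ h : ℝ → ℝ, h = fun s => (g s - g (-s)) / (W - g (-s)) := ⟨_, rfl⟩
  have hhs : ∀ s, h s = (g s - g (-s)) / (W - g (-s)) := fun s => by rw [hh']
  have hlim : Tendsto (fun s => h s / s) (𝓝[>] 0) (𝓝 (2 * D / (W - r))) := by
    rw [hh']; exact hg'
  -- the values
  have key : ∀ s : ℝ, 0 < s → s < min ρ1 ρ2 → h s ∈ Ioo (0 : ℝ) 1 ∧
      ∀ (R : ℕ → ℝ) (X Y : ℕ → ℤ → ℤ) (L : ℕ → ℤ),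
      App x y R X Y → Tendsto (fun j => (L j : ℝ) / R j) atTop (𝓝 s) →
      Tendsto (fun j => PI P (X j) (Y j) n (L j)) atTop (𝓝 (cardy (h s))) := by
    intro s hs hs'
    have s1 : s < ρ1 := hs'.trans_le (min_le_left _ _)
    have s2 : s < ρ2 := hs'.trans_le (min_le_right _ _)
    obtain ⟨x', y', I, K, hr', n1, n2, a1, a2, a3, a4, a5, a6⟩ := hint s hs s2
    have hO : Om (P.refine hr'.hI hr'.hK).Q x' y' = Om P.Q x y := om_ref hr' P.Q
    obtain ⟨φ, Cφ⟩ := exists_cht (P.refine hr'.hI hr'.hK) hr'.mx hr'.my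
    have C' := C.refine hx hy hr'
    have t1 : Tendsto ψ (𝓝[Om (P.refine hr'.hI hr'.hK).Q x' y']
        (pt x' y' ((P.refine hr'.hI hr'.hK).vert n1))) (𝓝 (g (-s) : ℂ)) := by
      rw [hO, a4]
      have := hg (-s) (by rw [abs_neg, abs_of_pos hs]; exact s1)
      rw [ofReal_neg, neg_mul, ← sub_eq_add_neg] at this
      exact this
    have t2 : Tendsto ψ (𝓝[Om (P.refine hr'.hI hr'.hK).Q x' y']
        (pt x' y' ((P.refine hr'.hI hr'.hK).vert n2))) (𝓝 (g s : ℂ)) := by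
      rw [hO, a5]
      exact hg s (by rw [abs_of_pos hs]; exact s1)
    have e1 := stChLam _ x' y' φ ψ W Cφ C' n1 n2 a1 a2 a3 _ _ t1 t2
    rw [← hhs s] at e1
    have hmem := lam_mem Cφ a1 a2 a3 (P.refine hr'.hI hr'.hK).hmN
    refine ⟨?_, ?_⟩
    · rw [← e1]
      exact ⟨by linarith [hmem.2], by linarith [hmem.1]⟩
    · intro R X Y L hA hL
      obtain ⟨X', Y', b1, b2⟩ := a6 R X Y L hA hL
      have b3 := hC _ x' y' hr'.mx hr'.my n1 n2 a1 a2 a3 φ Cφ R X' Y' b1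
      have e2 : cardy (h s) = 1 - cardy (lam (P.refine hr'.hI hr'.hK) x' y' n1 n2
          (P.refine hr'.hI hr'.hK).m φ) := by
        rw [← e1]
        exact cardy_symm ⟨hmem.1.le, hmem.2.le⟩
      rw [← e2] at b3
      exact b3.congr' b2
  refine ⟨min ρ1 ρ2, lt_min hρ1 hρ2, fun s => cardy (h s), ?_, ?_⟩
  · have e1 : Tendsto h (𝓝[>] 0) (𝓝[>] 0) := by
      refine tendsto_nhdsWithin_of_tendsto_nhds_of_eventually_within _ ?_ ?_
      · have h1 : Tendsto (fun s : ℝ => s) (𝓝[>] 0) (𝓝 0) :=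
          tendsto_id.mono_left nhdsWithin_le_nhds
        have h2 := hlim.mul h1
        rw [mul_zero] at h2
        refine h2.congr' ?_
        filter_upwards [self_mem_nhdsWithin] with s hs
        exact div_mul_cancel₀ _ (ne_of_gt hs)
      · have h3 : ∀ᶠ s : ℝ in 𝓝[>] 0, s < min ρ1 ρ2 :=
          (eventually_lt_nhds (lt_min hρ1 hρ2)).filter_mono nhdsWithin_le_nhds
        filter_upwards [h3, self_mem_nhdsWithin] with s hs hs'
        exact (key s hs' hs).1.1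
    have e2 := hκ.comp e1
    have hpos : 0 < 2 * D / (W - r) := div_pos (by linarith) (by linarith)
    have e3 := (hlim.rpow_const (p := (1 / 3 : ℝ)) (Or.inl hpos.ne'))
    have e4 := e2.mul e3
    refine e4.congr' ?_
    have h3 : ∀ᶠ s : ℝ in 𝓝[>] 0, s < min ρ1 ρ2 :=
      (eventually_lt_nhds (lt_min hρ1 hρ2)).filter_mono nhdsWithin_le_nhds
    filter_upwards [h3, self_mem_nhdsWithin] with s hs hs'
    have hs' : 0 < s := hs'
    have p1 := (key s hs' hs).1.1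
    have p2 : 0 < h s ^ (1 / 3 : ℝ) := Real.rpow_pos_of_pos p1 _
    simp only [Function.comp_apply]
    rw [Real.div_rpow p1.le hs'.le]
    field_simp
  · intro s hs hs'
    obtain ⟨k1, k2⟩ := key s hs hs'
    refine ⟨?_, k2⟩
    rw [← cardy_zero]
    exact cardy_strictMono ⟨le_rfl, zero_le_one⟩ ⟨k1.1.le, k1.2.le⟩ k1.1

/-- **The value of the ratio.** -/
theorem ratio_val (hC : StC3V) (hx : StrictMono x) (hy : StrictMono y)
    (hx' : StrictMono x') (hy' : StrictMono y') (C : Chart P x y ψ W) (C' : Chart P' x' y' ψ' W')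
    {n n' : ℕ} (hn : FlatV P n) (hn' : FlatV P' n') {r D r' D' : ℝ} (hr : r < W) (hD : 0 < D)
    (hb : BV P x y ψ n r D) (hr' : r' < W') (hD' : 0 < D') (hb' : BV P' x' y' ψ' n' r' D')
    {R : ℕ → ℝ} {X Y X' Y' : ℕ → ℤ → ℤ} (hA : App x y R X Y) (hA' : App x' y' R X' Y') :
    Tendsto (fun j => hh P (X j) (Y j) (lv P (X j) (Y j) n) /
      hh P' (X' j) (Y' j) (lv P' (X' j) (Y' j) n')) atTop
      (𝓝 ((D / (W - r)) ^ (1 / 3 : ℝ) / (D' / (W' - r')) ^ (1 / 3 : ℝ))) := by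
  obtain ⟨κ, hκ0, hκ⟩ := stCardy
  obtain ⟨ρ, hρ, f, hf, hf'⟩ := int_lim hC hx hy C hn hr hD hb hκ
  obtain ⟨ρ', hρ', f2, hf2, hf2'⟩ := int_lim hC hx' hy' C' hn' hr' hD' hb' hκ
  have q1 : 0 < D / (W - r) := div_pos hD (by linarith)
  have q2 : 0 < D' / (W' - r') := div_pos hD' (by linarith)
  obtain ⟨q, hq⟩ : ∃ q, (D / (W - r)) ^ (1 / 3 : ℝ) / (D' / (W' - r')) ^ (1 / 3 : ℝ) = q := ⟨_, rfl⟩
  have hq0 : 0 < q := by
    rw [← hq]
    exact div_pos (Real.rpow_pos_of_pos q1 _) (Real.rpow_pos_of_pos q2 _)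
  -- the ratio of the interval probabilities
  have hlim : Tendsto (fun s => f s / f2 s) (𝓝[>] 0) (𝓝 q) := by
    have e1 : 2 * D / (W - r) = 2 * (D / (W - r)) := by ring
    have e2 : 2 * D' / (W' - r') = 2 * (D' / (W' - r')) := by ring
    rw [e1, Real.mul_rpow (by norm_num) q1.le] at hf
    rw [e2, Real.mul_rpow (by norm_num) q2.le] at hf2
    have h2 : (0 : ℝ) < 2 ^ (1 / 3 : ℝ) := Real.rpow_pos_of_pos (by norm_num) _
    have p2 := Real.rpow_pos_of_pos q2 (1 / 3 : ℝ)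
    have p1 := Real.rpow_pos_of_pos q1 (1 / 3 : ℝ)
    have h3 := hf.div hf2 (by positivity)
    have e3 : κ * (2 ^ (1 / 3 : ℝ) * (D / (W - r)) ^ (1 / 3 : ℝ)) /
        (κ * (2 ^ (1 / 3 : ℝ) * (D' / (W' - r')) ^ (1 / 3 : ℝ))) = q := by
      rw [← hq]
      field_simp
    rw [e3] at h3
    refine h3.congr' ?_
    filter_upwards [self_mem_nhdsWithin] with s hs
    have hs : (0 : ℝ) < s := hs
    have := Real.rpow_pos_of_pos hs (1 / 3 : ℝ)
    simp only [Pi.div_apply]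
    rw [div_div_div_cancel_right₀ this.ne']
  rw [hq, Metric.tendsto_nhds]
  intro δ hδ
  obtain ⟨ε, hε⟩ : ∃ ε, ε = min (1 / 2) (δ / (2 * (q + 3))) := ⟨_, rfl⟩
  have hε0 : 0 < ε := by rw [hε]; exact lt_min (by norm_num) (by positivity)
  have hε1 : ε ≤ 1 / 2 := by rw [hε]; exact min_le_left _ _
  have hε2 : ε * (q + 3) ≤ δ / 2 := by
    have : ε ≤ δ / (2 * (q + 3)) := by rw [hε]; exact min_le_right _ _
    rw [le_div_iff₀ (by positivity)] at this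
    linarith
  obtain ⟨s0, hs0, hRL⟩ := Pool.Agent.H53.W.stRL ε hε0 P P' x y x' y' hx hy hx' hy' n n' hn hn'
  have h1 : ∀ᶠ s : ℝ in 𝓝[>] 0, s < min s0 (min ρ ρ') :=
    (eventually_lt_nhds (lt_min hs0 (lt_min hρ hρ'))).filter_mono nhdsWithin_le_nhds
  have h2 : ∀ᶠ s : ℝ in 𝓝[>] 0, dist (f s / f2 s) q < ε := (Metric.tendsto_nhds.1 hlim) ε hε0
  obtain ⟨s, ⟨g1, g2⟩, g3⟩ := ((h1.and h2).and self_mem_nhdsWithin).exists
  have g3 : 0 < s := g3
  obtain ⟨L, hL, hev⟩ := hRL s g3 (g1.trans_le (min_le_left _ _)) R X Y X' Y' hA hA'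
  obtain ⟨f0, fl⟩ := hf' s g3 (g1.trans_le ((min_le_right _ _).trans (min_le_left _ _)))
  obtain ⟨f20, fl2⟩ := hf2' s g3 (g1.trans_le ((min_le_right _ _).trans (min_le_right _ _)))
  have fl := fl R X Y L hA hL
  have fl2 := fl2 R X' Y' L hA' hL
  have l3 := fl.div fl2 f20.ne'
  have l4 : ∀ᶠ j in atTop, dist (PI P (X j) (Y j) n (L j) / PI P' (X' j) (Y' j) n' (L j))
      (f s / f2 s) < ε := (Metric.tendsto_nhds.1 l3) ε hε0
  filter_upwards [hev, l4, fl.eventually_const_lt f0, fl2.eventually_const_lt f20]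
    with j j1 j2 j3 j4
  obtain ⟨a, ha⟩ : ∃ a, hh P (X j) (Y j) (lv P (X j) (Y j) n) = a := ⟨_, rfl⟩
  obtain ⟨a', ha'⟩ : ∃ a, hh P' (X' j) (Y' j) (lv P' (X' j) (Y' j) n') = a := ⟨_, rfl⟩
  obtain ⟨p, hp⟩ : ∃ a, PI P (X j) (Y j) n (L j) = a := ⟨_, rfl⟩
  obtain ⟨p', hp'⟩ : ∃ a, PI P' (X' j) (Y' j) n' (L j) = a := ⟨_, rfl⟩
  rw [ha, ha', hp, hp'] at j1
  rw [hp, hp'] at j2
  rw [hp] at j3
  rw [hp'] at j4
  rw [ha, ha', Real.dist_eq]
  rw [Real.dist_eq] at j2 g2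
  have e1 : a / a' = (a / p / (a' / p')) * (p / p') := by
    rcases eq_or_ne a' 0 with h | h
    · rw [h]; simp
    · field_simp
  obtain ⟨A, hA⟩ : ∃ A, a / p / (a' / p') = A := ⟨_, rfl⟩
  obtain ⟨B, hB⟩ : ∃ B, p / p' = B := ⟨_, rfl⟩
  rw [hA] at j1
  rw [hB] at j2
  rw [e1, hA, hB]
  have hBq : |B - q| < 2 * ε := by
    have := abs_sub_le B (f s / f2 s) q
    linarith
  have hB1 : |B| ≤ q + 1 := by
    have h5 := abs_sub_le B q 0
    rw [sub_zero, sub_zero, abs_of_pos hq0] at h5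
    linarith
  have e2 : A * B - q = (A - 1) * B + (B - q) := by ring
  rw [e2]
  calc |(A - 1) * B + (B - q)| ≤ |A - 1| * |B| + |B - q| := by
        rw [← abs_mul]; exact abs_add_le _ _
    _ ≤ ε * (q + 1) + 2 * ε := by
        have := mul_le_mul j1 hB1 (abs_nonneg _) hε0.le
        linarith
    _ = ε * (q + 3) := by ring
    _ < δ := by linarith

/-- **(A)** -/
theorem stA_of (hC : StC3V) : StA := by
  intro P x y hx hy n n' hn hn'
  obtain ⟨ψ, W, C⟩ := exists_chart P hx hy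
  obtain ⟨r, D, hr, hD, hb⟩ := C.exists_bv hx hy hn
  obtain ⟨r', D', hr', hD', hb'⟩ := C.exists_bv hx hy hn'
  refine ⟨(D / (W - r)) ^ (1 / 3 : ℝ) / (D' / (W - r')) ^ (1 / 3 : ℝ), ?_, ?_⟩
  · exact div_pos (Real.rpow_pos_of_pos (div_pos hD (by linarith)) _)
      (Real.rpow_pos_of_pos (div_pos hD' (by linarith)) _)
  · intro R X Y hA
    exact ratio_val hC hx hy hx hy C C hn hn' hr hD hb hr' hD' hb' hA hA

end Pool.Agent.H5.WH
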